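import Pool.Graph.R_seed8.W354.HW.Main
import Pool.Graph.R_pool_sql_team_seeded_3997aac3.Q286.GB.All

/-!
Growth of the L-functions `L(s, ψ^k)` in right half-planes.
-/

set_option autoImplicit false

open Complex Filter Topology Set
open scoped ComplexConjugate

namespace Pool.Agent.Helper39.ND

open Pool.Agent.W354.PK Pool.Agent.W354.HW Pool.Agent.Q286.GB
open Pool.Agent.H304R3.HK (tc one_le_norm_tc)

noncomputable section

/-- the archimedean parameters -/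
def muK (k : ℕ) : Fin 2 → ℂ := ![-(k / 2 : ℂ), -(k / 2 : ℂ) - 1]

/-- the completed L-function -/
def LamF (k : ℕ) (κ : ℝ) (b : ℕ → ℂ) (s : ℂ) : ℂ := 2 * ((2 * κ : ℝ) : ℂ) ^ (-(s + k / 2)) * LLk k κ b s

lemma conj_rp {x : ℝ} (hx : 0 < x) (z : ℂ) : conj ((x : ℂ) ^ z) = (x : ℂ) ^ (conj z) := by
  rw [Complex.cpow_conj _ _ (by rw [Complex.arg_ofReal_of_nonneg hx.le]; exact Real.pi_pos.ne),
    Complex.conj_ofReal]

lemma re_add (k : ℕ) (s : ℂ) : (s + k / 2).re = s.re + k / 2 := by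
  have : (s + k / 2 : ℂ) = s + ((k / 2 : ℝ) : ℂ) := by push_cast; ring
  rw [this, Complex.add_re, Complex.ofReal_re]

lemma LL_muK {k : ℕ} {κ : ℝ} {b : ℕ → ℂ} (hκ : 1 ≤ κ) (s : ℂ) :
    LL (muK k) (LamF k κ b) s = FFk k b s := by
  have hκ0 : 0 < κ := by linarith
  unfold LL muK LamF
  rw [Fin.prod_univ_two]
  simp only [Matrix.cons_val_zero, Matrix.cons_val_one]
  have e1 : s - -(k / 2 : ℂ) = s + k / 2 := by ring
  have e2 : s - (-(k / 2 : ℂ) - 1) = s + k / 2 + 1 := by ring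
  rw [e1, e2, ← mul_inv, Gammaℝ_mul_Gammaℝ_add_one, Gammaℂ_def, FF_eq k κ hκ]
  generalize s + (k : ℂ) / 2 = z
  rw [mul_inv, mul_inv, ← Complex.cpow_neg, neg_neg]
  have h1 : ((2 * κ : ℝ) : ℂ) ^ (-z) * (2 * (Real.pi : ℂ)) ^ z = ((κ / Real.pi : ℝ) : ℂ) ^ (-z) := by
    have h2 : ((2 * κ : ℝ) : ℂ) = ((2 * Real.pi : ℝ) : ℂ) * ((κ / Real.pi : ℝ) : ℂ) := by
      rw [← Complex.ofReal_mul]
      congr 1
      field_simp
    rw [h2, Complex.mul_cpow_ofReal_nonneg (by positivity) (by positivity)]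
    have h3 : (2 * (Real.pi : ℂ)) = ((2 * Real.pi : ℝ) : ℂ) := by push_cast; rfl
    rw [h3]
    have h4 : ((2 * Real.pi : ℝ) : ℂ) ≠ 0 := by
      exact_mod_cast (by positivity : (2 * Real.pi) ≠ 0)
    have h5 : ((2 * Real.pi : ℝ) : ℂ) ^ (-z) * ((2 * Real.pi : ℝ) : ℂ) ^ z = 1 := by
      rw [← Complex.cpow_add _ _ h4, neg_add_cancel, Complex.cpow_zero]
    linear_combination (((κ / Real.pi : ℝ) : ℂ) ^ (-z)) * h5
  rw [← h1]
  ring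

theorem std_k {k : ℕ} {κ : ℝ} {b : ℕ → ℂ} {w : ℂ} (H : Thk k κ b w) :
    Std ((2 * κ) ^ 2) (muK k) (LamF k κ b) := by
  have hκ : 1 ≤ κ := H.k1
  have hκ0 : (0:ℝ) < 2 * κ := by linarith
  have hκc : ((2 * κ : ℝ) : ℂ) ≠ 0 := by exact_mod_cast hκ0.ne'
  refine ⟨by positivity, ?_, ?_, ?_, ?_, ?_⟩
  · intro j
    have hk : (0:ℝ) ≤ k := Nat.cast_nonneg k
    have h1 : (-(k / 2 : ℂ)).re = -(k / 2 : ℝ) := by
      have : (-(k / 2 : ℂ)) = ((-(k / 2 : ℝ) : ℝ) : ℂ) := by push_cast; rfl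
      rw [this, Complex.ofReal_re]
    fin_cases j
    · show (-(k / 2 : ℂ)).re < 1 / 2
      rw [h1]; linarith
    · show (-(k / 2 : ℂ) - 1).re < 1 / 2
      rw [Complex.sub_re, h1, Complex.one_re]; linarith
  · unfold LamF
    refine Differentiable.mul (Differentiable.mul (differentiable_const _) ?_) (LL_entire k κ b w H)
    intro s
    exact DifferentiableAt.const_cpow (by fun_prop) (Or.inl hκc)
  · refine ⟨w, H.w1, fun s => ?_⟩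
    have h1 := LL_fe k κ b w H (1 - s)
    have e1 : (1:ℂ) - (1 - s) = s := by ring
    have e2 : (starRingEnd ℂ) (1 - s) = 1 - conj s := by rw [map_sub, map_one]
    rw [e1, e2] at h1
    unfold LamF
    rw [map_mul, map_mul, h1]
    have h2 : conj (((2 * κ : ℝ) : ℂ) ^ (-(1 - conj s + (k : ℂ) / 2))) = ((2 * κ : ℝ) : ℂ) ^ (-(1 - s + (k : ℂ) / 2)) := by
      rw [conj_rp hκ0]
      congr 1
      rw [map_neg, map_add, map_sub, map_one, Complex.conj_conj, map_div₀, map_natCast, map_ofNat]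
    rw [h2]
    have h3 : (((2 * κ) ^ 2 : ℝ) : ℂ) ^ (1 / 2 - s) = ((2 * κ : ℝ) : ℂ) ^ (1 - 2 * s) := by
      rw [sq, Complex.ofReal_mul, Complex.mul_cpow_ofReal_nonneg hκ0.le hκ0.le, ← Complex.cpow_add _ _ hκc]
      congr 1
      ring
    have h4 : ((2 * κ : ℝ) : ℂ) ^ (-(s + (k : ℂ) / 2)) =
        ((2 * κ : ℝ) : ℂ) ^ (1 - 2 * s) * ((2 * κ : ℝ) : ℂ) ^ (-(1 - s + (k : ℂ) / 2)) := by
      rw [← Complex.cpow_add _ _ hκc]
      congr 1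
      ring
    rw [h3, h4, map_ofNat]
    ring
  · intro a c
    obtain ⟨C, hC⟩ := LL_bdd k κ b w H a c
    refine ⟨2 * (2 * κ) ^ (-(a + k / 2)) * |C|, 0, fun s h1 h2 => ?_⟩
    have h3 : ‖LamF k κ b s‖ ≤ 2 * (2 * κ) ^ (-(a + k / 2)) * |C| := by
      unfold LamF
      rw [norm_mul, norm_mul, Complex.norm_cpow_eq_rpow_re_of_pos hκ0, Complex.norm_two, Complex.neg_re, re_add]
      refine mul_le_mul (mul_le_mul_of_nonneg_left ?_ (by norm_num)) ((hC s h1 h2).trans (le_abs_self C)) (norm_nonneg _) (by positivity)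
      exact Real.rpow_le_rpow_of_exponent_le (by linarith) (by linarith)
    rw [Real.rpow_zero, mul_one]
    have h4 := Real.add_one_le_exp (2 * (2 * κ) ^ (-(a + k / 2)) * |C|)
    linarith
  · refine ⟨Pool.Agent.H304R3.HK.L2x.C0, fun s hs => ?_⟩
    rw [LL_muK hκ]
    exact L2x.FF_le_C0 k b H.b0 H.bd s (by linarith)

/-- growth of the L-functions of the powers of the Hecke character -/
theorem FE_grow (l : ℕ) (B : ℝ) : ∃ C K : ℝ, 0 < C ∧ 0 ≤ K ∧ ∀ s : ℂ, -B ≤ s.re →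
    ‖FE (2 * l + 1) s‖ ≤ C * (1 + ‖s‖) ^ K := by
  obtain ⟨w, H⟩ := th_psik (k := 2 * l + 1) (by omega) qE (chiE ^ (2 * l + 1)) (chiE_pow_HC (odd_l l))
  obtain ⟨C, K, h1, h2, h3⟩ := (grw 2 _ _ _ (std_k H)).2 B
  refine ⟨C, K, h1, h2, fun s hs => ?_⟩
  have h4 := h3 s hs
  rwa [LL_muK H.k1] at h4

lemma grow_mul {F G : ℂ → ℂ} {B : ℝ} (hF : ∃ C K : ℝ, 0 < C ∧ 0 ≤ K ∧ ∀ s : ℂ, -B ≤ s.re → ‖F s‖ ≤ C * (1 + ‖s‖) ^ K)
    (hG : ∃ C K : ℝ, 0 < C ∧ 0 ≤ K ∧ ∀ s : ℂ, -B ≤ s.re → ‖G s‖ ≤ C * (1 + ‖s‖) ^ K) :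
    ∃ C K : ℝ, 0 < C ∧ 0 ≤ K ∧ ∀ s : ℂ, -B ≤ s.re → ‖F s * G s‖ ≤ C * (1 + ‖s‖) ^ K := by
  obtain ⟨C, K, h1, h2, h3⟩ := hF
  obtain ⟨C', K', h1', h2', h3'⟩ := hG
  refine ⟨C * C', K + K', by positivity, by linarith, fun s hs => ?_⟩
  rw [norm_mul, Real.rpow_add (by positivity)]
  refine (mul_le_mul (h3 s hs) (h3' s hs) (norm_nonneg _) (by positivity)).trans (le_of_eq ?_)
  ring

lemma grow_pow {F : ℂ → ℂ} {B : ℝ} (hF : ∃ C K : ℝ, 0 < C ∧ 0 ≤ K ∧ ∀ s : ℂ, -B ≤ s.re → ‖F s‖ ≤ C * (1 + ‖s‖) ^ K)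
    (n : ℕ) : ∃ C K : ℝ, 0 < C ∧ 0 ≤ K ∧ ∀ s : ℂ, -B ≤ s.re → ‖F s ^ n‖ ≤ C * (1 + ‖s‖) ^ K := by
  induction n with
  | zero => exact ⟨1, 0, one_pos, le_rfl, fun s _ => by simp⟩
  | succ n ih =>
    simp only [pow_succ]
    exact grow_mul ih hF

theorem LL0_grow (g m : ℕ) (B : ℝ) : ∃ C K : ℝ, 0 < C ∧ 0 ≤ K ∧ ∀ s : ℂ, -B ≤ s.re →
    ‖LL0 g m s‖ ≤ C * (1 + ‖s‖) ^ K := by
  unfold LL0
  generalize Finset.range (m + 1) = S
  classical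
  induction S using Finset.induction_on with
  | empty => exact ⟨1, 0, one_pos, le_rfl, fun s _ => by simp⟩
  | insert l S hl ih =>
    simp only [Finset.prod_insert hl]
    exact grow_mul (grow_pow (FE_grow l B) _) ih

end

end Pool.Agent.Helper39.ND
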