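import Pool.Agent.Helper39.ND.Nec

/-!
Euler products of bounded degree: the Dirichlet series of `∏ P_p(p^(-s))⁻¹` and its inverse.
-/

set_option autoImplicit false

open Filter Topology Set Polynomial
open scoped ArithmeticFunction ArithmeticFunction.Moebius ArithmeticFunction.zeta

namespace Pool.Agent.Helper39.ND

noncomputable section

/-! ## local factors -/

/-- the local factor of an arithmetic function at a prime -/
def loc (p : ℕ) (hp : p.Prime) : ArithmeticFunction ℂ →+* PowerSeries ℂ where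
  toFun f := PowerSeries.mk fun k => f (p ^ k)
  map_one' := by
    ext k
    rw [PowerSeries.coeff_mk, PowerSeries.coeff_one, ArithmeticFunction.one_apply]
    refine if_congr ?_ rfl rfl
    rw [Nat.pow_eq_one]
    exact ⟨fun h => h.resolve_left hp.one_lt.ne', fun h => Or.inr h⟩
  map_zero' := by ext k; simp
  map_add' f g := by ext k; simp
  map_mul' f g := by
    ext k
    rw [PowerSeries.coeff_mk, PowerSeries.coeff_mul, ArithmeticFunction.mul_apply,
      Nat.sum_divisorsAntidiagonal (fun a b => f a * g b), Nat.divisors_prime_pow hp, Finset.sum_map,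
      Finset.Nat.sum_antidiagonal_eq_sum_range_succ_mk]
    refine Finset.sum_congr rfl fun i hi => ?_
    have hik : i ≤ k := Nat.lt_succ_iff.mp (Finset.mem_range.mp hi)
    simp only [Function.Embedding.coeFn_mk, PowerSeries.coeff_mk]
    rw [Nat.pow_div hik hp.pos]

lemma loc_coeff (p : ℕ) (hp : p.Prime) (f : ArithmeticFunction ℂ) (k : ℕ) :
    PowerSeries.coeff k (loc p hp f) = f (p ^ k) := by
  show PowerSeries.coeff k (PowerSeries.mk fun k => f (p ^ k)) = _
  rw [PowerSeries.coeff_mk]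

/-! ## completely multiplicative functions -/

/-- the completely multiplicative function with given values at the primes -/
def cm (α : ℕ → ℂ) : ArithmeticFunction ℂ where
  toFun n := if n = 0 then 0 else n.factorization.prod fun p k => α p ^ k
  map_zero' := if_pos rfl

lemma cm_one (α : ℕ → ℂ) : cm α 1 = 1 := by
  show (if (1:ℕ) = 0 then (0:ℂ) else (1:ℕ).factorization.prod fun p k => α p ^ k) = 1
  simp

lemma cm_mul (α : ℕ → ℂ) (m n : ℕ) : cm α (m * n) = cm α m * cm α n := by
  show (if m * n = 0 then (0:ℂ) else _) = (if m = 0 then (0:ℂ) else _) * (if n = 0 then (0:ℂ) else _)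
  by_cases hm : m = 0
  · simp [hm]
  by_cases hn : n = 0
  · simp [hn]
  rw [if_neg hm, if_neg hn, if_neg (mul_ne_zero hm hn), Nat.factorization_mul hm hn]
  exact Finsupp.prod_add_index' (fun _ => pow_zero _) fun _ _ _ => pow_add _ _ _

lemma cm_prime (α : ℕ → ℂ) {p : ℕ} (hp : p.Prime) : cm α p = α p := by
  show (if p = 0 then (0:ℂ) else _) = α p
  rw [if_neg hp.ne_zero, hp.factorization]
  simp [Finsupp.prod_single_index]

lemma cm_pow (α : ℕ → ℂ) {p : ℕ} (hp : p.Prime) (k : ℕ) : cm α (p ^ k) = α p ^ k := by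
  induction k with
  | zero => rw [pow_zero, pow_zero, cm_one]
  | succ k ih => rw [pow_succ, cm_mul, ih, cm_prime α hp, pow_succ]

lemma cm_isMul (α : ℕ → ℂ) : (cm α).IsMultiplicative := ⟨cm_one α, fun _ => cm_mul α _ _⟩

lemma cm_le (α : ℕ → ℂ) {a : ℝ} (hα : ∀ p : ℕ, p.Prime → ‖α p‖ ≤ (p : ℝ) ^ a) (n : ℕ) (hn : n ≠ 0) :
    ‖cm α n‖ ≤ (n : ℝ) ^ a := by
  induction n using Nat.recOnMul with
  | zero => exact absurd rfl hn
  | one => rw [cm_one]; simp
  | prime p hp => rw [cm_prime α hp]; exact hα p hp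
  | mul m n ihm ihn =>
    rw [Nat.mul_ne_zero_iff] at hn
    rw [cm_mul, norm_mul]
    push_cast
    rw [Real.mul_rpow (Nat.cast_nonneg m) (Nat.cast_nonneg n)]
    exact mul_le_mul (ihm hn.1) (ihn hn.2) (norm_nonneg _) (Real.rpow_nonneg (Nat.cast_nonneg m) _)

/-- its Dirichlet inverse -/
def mc (α : ℕ → ℂ) : ArithmeticFunction ℂ := ArithmeticFunction.pmul ((μ : ArithmeticFunction ℤ) : ArithmeticFunction ℂ) (cm α)

lemma mc_apply (α : ℕ → ℂ) (n : ℕ) : mc α n = ((μ n : ℤ) : ℂ) * cm α n := by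
  unfold mc
  rw [ArithmeticFunction.pmul_apply, ArithmeticFunction.intCoe_apply]

lemma mc_isMul (α : ℕ → ℂ) : (mc α).IsMultiplicative :=
  (ArithmeticFunction.isMultiplicative_moebius.intCast).pmul (cm_isMul α)

lemma cm_mul_mc (α : ℕ → ℂ) : cm α * mc α = 1 := by
  ext n
  rw [ArithmeticFunction.mul_apply]
  have h1 : ∑ x ∈ n.divisorsAntidiagonal, cm α x.1 * mc α x.2 =
      cm α n * ∑ x ∈ n.divisorsAntidiagonal, (ζ : ArithmeticFunction ℂ) x.1 * ((μ : ArithmeticFunction ℤ) : ArithmeticFunction ℂ) x.2 := by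
    rw [Finset.mul_sum]
    refine Finset.sum_congr rfl fun x hx => ?_
    have h2 := (Nat.mem_divisorsAntidiagonal.mp hx)
    have h3 : x.1 ≠ 0 := by
      intro h; rw [h, zero_mul] at h2; exact h2.2 h2.1.symm
    rw [mc_apply, ← h2.1, cm_mul, ArithmeticFunction.natCoe_apply, ArithmeticFunction.zeta_apply, if_neg h3,
      ArithmeticFunction.intCoe_apply]
    push_cast
    ring
  rw [h1, ← ArithmeticFunction.mul_apply, ArithmeticFunction.coe_zeta_mul_coe_moebius]
  by_cases hn : n = 1
  · rw [hn, cm_one, one_mul]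
  · rw [ArithmeticFunction.one_apply_ne hn, mul_zero]

lemma loc_mc (α : ℕ → ℂ) {p : ℕ} (hp : p.Prime) :
    loc p hp (mc α) = ((1 - C (α p) * X : ℂ[X]) : PowerSeries ℂ) := by
  ext k
  rw [loc_coeff, mc_apply, cm_pow α hp, Polynomial.coeff_coe]
  rcases k with _ | _ | k
  · simp
  · rw [zero_add, pow_one, pow_one, ArithmeticFunction.moebius_apply_prime hp, coeff_sub, coeff_C_mul, coeff_X_one, coeff_one]
    simp
  · rw [ArithmeticFunction.moebius_apply_prime_pow hp (by omega), if_neg (by omega), coeff_sub, coeff_C_mul,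
      coeff_X, coeff_one]
    simp

/-! ## products -/

variable {b : ℕ}

/-- the coefficients of the Euler product -/
def la (α : Fin b → ℕ → ℂ) : ArithmeticFunction ℂ := ∏ j, cm (α j)

/-- the coefficients of the reciprocal -/
def ma (α : Fin b → ℕ → ℂ) : ArithmeticFunction ℂ := ∏ j, mc (α j)

lemma la_mul_ma (α : Fin b → ℕ → ℂ) : la α * ma α = 1 := by
  unfold la ma
  rw [← Finset.prod_mul_distrib]
  exact Finset.prod_eq_one fun j _ => cm_mul_mc _

lemma isMul_prod {ι : Type*} (s : Finset ι) (f : ι → ArithmeticFunction ℂ)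
    (h : ∀ i ∈ s, (f i).IsMultiplicative) : (∏ i ∈ s, f i).IsMultiplicative := by
  classical
  induction s using Finset.induction_on with
  | empty => rw [Finset.prod_empty]; exact ArithmeticFunction.isMultiplicative_one
  | insert i s hi ih =>
    rw [Finset.prod_insert hi]
    exact (h i (Finset.mem_insert_self i s)).mul (ih fun j hj => h j (Finset.mem_insert_of_mem hj))

lemma la_isMul (α : Fin b → ℕ → ℂ) : (la α).IsMultiplicative := isMul_prod _ _ fun _ _ => cm_isMul _

lemma ma_isMul (α : Fin b → ℕ → ℂ) : (ma α).IsMultiplicative := isMul_prod _ _ fun _ _ => mc_isMul _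

lemma loc_ma (α : Fin b → ℕ → ℂ) {p : ℕ} (hp : p.Prime) :
    loc p hp (ma α) = ((∏ j, (1 - C (α j p) * X) : ℂ[X]) : PowerSeries ℂ) := by
  unfold ma
  rw [map_prod]
  simp only [loc_mc _ hp]
  have h1 := map_prod (Polynomial.coeToPowerSeries.ringHom (R := ℂ)) (fun j => 1 - C (α j p) * X) Finset.univ
  simp only [Polynomial.coeToPowerSeries.ringHom_apply] at h1
  exact h1.symm

/-- the explicit coefficients of the Euler product -/
def coef (P : ℕ → ℂ[X]) (n : ℕ) : ℂ := n.factorization.prod fun p k => PowerSeries.coeff k ((P p : PowerSeries ℂ)⁻¹)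

/-- the explicit coefficients of the reciprocal -/
def coefInv (P : ℕ → ℂ[X]) (n : ℕ) : ℂ := n.factorization.prod fun p k => (P p).coeff k

/-- the roots of the Euler factors -/
def IsRoots (P : ℕ → ℂ[X]) (α : Fin b → ℕ → ℂ) : Prop := ∀ p : ℕ, p.Prime → P p = ∏ j, (1 - C (α j p) * X)

lemma ma_eq {P : ℕ → ℂ[X]} {α : Fin b → ℕ → ℂ} (h : IsRoots P α) {n : ℕ} (hn : n ≠ 0) : ma α n = coefInv P n := by
  rw [(ma_isMul α).multiplicative_factorization (ma α) hn]
  refine Finset.prod_congr rfl fun p hp => ?_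
  have hp' : p.Prime := Nat.prime_of_mem_primeFactors hp
  have h1 := loc_coeff p hp' (ma α) (n.factorization p)
  rw [loc_ma α hp', ← h p hp', Polynomial.coeff_coe] at h1
  exact h1.symm

lemma la_eq {P : ℕ → ℂ[X]} {α : Fin b → ℕ → ℂ} (h : IsRoots P α) {n : ℕ} (hn : n ≠ 0) : la α n = coef P n := by
  rw [(la_isMul α).multiplicative_factorization (la α) hn]
  refine Finset.prod_congr rfl fun p hp => ?_
  have hp' : p.Prime := Nat.prime_of_mem_primeFactors hp
  have h1 := loc_coeff p hp' (la α) (n.factorization p)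
  have h2 : loc p hp' (la α) * (P p : PowerSeries ℂ) = 1 := by
    have h3 := loc_ma α hp'
    rw [← h p hp'] at h3
    rw [← h3, ← map_mul, la_mul_ma, map_one]
  have h4 : PowerSeries.constantCoeff (P p : PowerSeries ℂ) ≠ 0 := by
    intro h5
    have h6 := congrArg PowerSeries.constantCoeff h2
    rw [map_mul, h5, mul_zero, map_one] at h6
    exact zero_ne_one h6
  rw [(PowerSeries.eq_inv_iff_mul_eq_one h4).mpr h2] at h1
  exact h1.symm

/-! ## convergence -/

lemma prod_summable {ι : Type*} (s : Finset ι) (f : ι → ArithmeticFunction ℂ) {z : ℂ}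
    (h : ∀ i ∈ s, LSeriesSummable (fun n => f i n) z) :
    LSeriesSummable (fun n => (∏ i ∈ s, f i) n) z ∧
      LSeries (fun n => (∏ i ∈ s, f i) n) z = ∏ i ∈ s, LSeries (fun n => f i n) z := by
  classical
  induction s using Finset.induction_on with
  | empty =>
    rw [Finset.prod_empty, Finset.prod_empty]
    have h1 : (fun n => (1 : ArithmeticFunction ℂ) n) = LSeries.delta := by
      funext n
      rw [ArithmeticFunction.one_apply, LSeries.delta]
    rw [h1]
    refine ⟨?_, congrFun LSeries_delta z⟩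
    rw [LSeriesSummable]
    refine summable_of_ne_finset_zero (s := {1}) fun n hn => ?_
    rw [Finset.mem_singleton] at hn
    rw [LSeries.term_def, LSeries.delta, if_neg hn]
    simp
  | insert i s hi ih =>
    obtain ⟨h1, h2⟩ := ih fun j hj => h j (Finset.mem_insert_of_mem hj)
    have h3 := h i (Finset.mem_insert_self i s)
    rw [Finset.prod_insert hi, Finset.prod_insert hi, ← h2]
    exact ⟨ArithmeticFunction.LSeriesSummable_mul h3 h1, ArithmeticFunction.LSeries_mul' h3 h1⟩

lemma cm_summable {α : ℕ → ℂ} {a : ℝ} (hα : ∀ p : ℕ, p.Prime → ‖α p‖ ≤ (p : ℝ) ^ a) {s : ℂ} (hs : a + 1 < s.re) :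
    LSeriesSummable (fun n => cm α n) s := by
  refine LSeriesSummable_of_le_const_mul_rpow (x := a + 1) hs ⟨1, fun n hn => ?_⟩
  rw [one_mul, add_sub_cancel_right]
  exact cm_le α hα n hn

lemma mc_summable {α : ℕ → ℂ} {a : ℝ} (hα : ∀ p : ℕ, p.Prime → ‖α p‖ ≤ (p : ℝ) ^ a) {s : ℂ} (hs : a + 1 < s.re) :
    LSeriesSummable (fun n => mc α n) s := by
  refine LSeriesSummable_of_le_const_mul_rpow (x := a + 1) hs ⟨1, fun n hn => ?_⟩
  rw [one_mul, add_sub_cancel_right, mc_apply, norm_mul]
  have h1 : ‖((μ n : ℤ) : ℂ)‖ ≤ 1 := by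
    rw [Complex.norm_intCast]
    exact_mod_cast ArithmeticFunction.abs_moebius_le_one
  have h2 := cm_le α hα n hn
  nlinarith [norm_nonneg (cm α n)]

/-- the Euler product of a completely multiplicative function -/
lemma cm_hasProd {α : ℕ → ℂ} {a : ℝ} (hα : ∀ p : ℕ, p.Prime → ‖α p‖ ≤ (p : ℝ) ^ a) {s : ℂ} (hs : a + 1 < s.re) :
    HasProd (fun p : Nat.Primes => (1 - α p * ((p : ℕ) : ℂ) ^ (-s))⁻¹) (LSeries (fun n => cm α n) s) := by
  have hsum := cm_summable hα hs
  set f : ℕ →*₀ ℂ :=
    { toFun := fun n => LSeries.term (fun n => cm α n) s n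
      map_zero' := by simp
      map_one' := by rw [LSeries.term_of_ne_zero one_ne_zero, cm_one]; simp
      map_mul' := by
        intro m n
        by_cases hm : m = 0
        · simp [hm]
        by_cases hn : n = 0
        · simp [hn]
        rw [LSeries.term_of_ne_zero hm, LSeries.term_of_ne_zero hn, LSeries.term_of_ne_zero (mul_ne_zero hm hn), cm_mul]
        push_cast
        rw [Complex.natCast_mul_natCast_cpow]
        field_simp } with hf
  have h1 : Summable (fun n => ‖f n‖) := hsum.norm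
  have h2 := EulerProduct.eulerProduct_completely_multiplicative_hasProd h1
  have h3 : (fun p : Nat.Primes => (1 - f p)⁻¹) = fun p : Nat.Primes => (1 - α p * ((p : ℕ) : ℂ) ^ (-s))⁻¹ := by
    funext p
    have hp := p.2
    show (1 - LSeries.term (fun n => cm α n) s (p : ℕ))⁻¹ = _
    rw [LSeries.term_of_ne_zero hp.ne_zero, cm_prime α hp, Complex.cpow_neg, div_eq_mul_inv]
  rw [h3] at h2
  exact h2

/-- the Euler product -/
lemma la_hasProd {P : ℕ → ℂ[X]} {α : Fin b → ℕ → ℂ} (h : IsRoots P α) {a : ℝ}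
    (hα : ∀ (j : Fin b) (p : ℕ), p.Prime → ‖α j p‖ ≤ (p : ℝ) ^ a) {s : ℂ} (hs : a + 1 < s.re) :
    HasProd (fun p : Nat.Primes => ((P p).eval (((p : ℕ) : ℂ) ^ (-s)))⁻¹) (LSeries (fun n => la α n) s) := by
  have h1 := (prod_summable Finset.univ (fun j => cm (α j)) (z := s) fun j _ => cm_summable (hα j) hs).2
  have h2 : LSeries (fun n => la α n) s = ∏ j, LSeries (fun n => cm (α j) n) s := h1
  rw [h2]
  have h3 := hasProd_prod (s := (Finset.univ : Finset (Fin b)))
    (f := fun j => fun p : Nat.Primes => (1 - α j p * ((p : ℕ) : ℂ) ^ (-s))⁻¹)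
    (a := fun j => LSeries (fun n => cm (α j) n) s) fun j _ => cm_hasProd (hα j) hs
  have h4 : (fun p : Nat.Primes => ((P p).eval (((p : ℕ) : ℂ) ^ (-s)))⁻¹) =
      fun p : Nat.Primes => ∏ j ∈ (Finset.univ : Finset (Fin b)), (1 - α j p * ((p : ℕ) : ℂ) ^ (-s))⁻¹ := by
    funext p
    rw [h p p.2, Polynomial.eval_prod, Finset.prod_inv_distrib]
    congr 1
    refine Finset.prod_congr rfl fun j _ => ?_
    simp
  rw [h4]
  exact h3

end

end Pool.Agent.Helper39.ND
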