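import Pool.Agent.Helper39.ND.Suf
import Pool.Graph.R_pool_sql_team_seeded_3997aac3.Q214.NL.UL
import Pool.Graph.R_pool_sql_team_seeded_3997aac3.Q124.NL.GZ
import Pool.Graph.R_pool_sql_team_seeded_3997aac3.Q124.NL.PE
import Pool.Graph.R_pool_sql_team_seeded_3997aac3.Q124.NL.ID
import Pool.Graph.R_pool_sql_team_seeded_3997aac3.Q275.NL.HD
import Pool.Graph.R_pool_sql_team_seeded_3997aac3.Q277.NL.LP

/-!
Sufficiency for L-functions, from the coefficients `mu(n) (1 - n / N)`.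
-/

set_option autoImplicit false

open MeasureTheory Filter Topology Set
open scoped ENNReal

namespace Pool.Agent.Helper39.ND

open Pool.Agent.Q286.GB Pool.Agent.Q120.NL

noncomputable section

/-- the double sum -/
lemma conv_sum (f g : ℕ → ℂ) {Y : ℕ} : ∀ J : ℕ, J ≤ Y →
    ∑ k ∈ Finset.Icc 1 J, ∑ q ∈ k.divisorsAntidiagonal, f q.1 * g q.2 =
      ∑ m ∈ Finset.Icc 1 Y, f m * ∑ k ∈ Finset.Icc 1 (J / m), g k := by
  intro J
  induction J with
  | zero => intro _; simp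
  | succ J ih =>
    intro hJ
    have h1 := ih (by omega)
    rw [Finset.sum_Icc_succ_top (by omega), h1]
    have h2 : ∑ m ∈ Finset.Icc 1 Y, f m * ∑ k ∈ Finset.Icc 1 ((J + 1) / m), g k =
        ∑ m ∈ Finset.Icc 1 Y, f m * ∑ k ∈ Finset.Icc 1 (J / m), g k +
        ∑ m ∈ Finset.Icc 1 Y, (if m ∣ J + 1 then f m * g ((J + 1) / m) else 0) := by
      rw [← Finset.sum_add_distrib]
      refine Finset.sum_congr rfl fun m hm => ?_
      rw [Nat.succ_div]
      split_ifs with hd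
      · rw [Finset.sum_Icc_succ_top (Nat.le_add_left 1 _)]
        ring
      · simp
    rw [h2, ← Finset.sum_filter]
    have h3 : (Finset.Icc 1 Y).filter (fun k => k ∣ J + 1) = (J + 1).divisors := by
      ext k
      simp only [Finset.mem_filter, Finset.mem_Icc, Nat.mem_divisors]
      constructor
      · rintro ⟨_, h⟩; exact ⟨h, by omega⟩
      · rintro ⟨h, _⟩
        exact ⟨⟨Nat.pos_of_dvd_of_pos h (by omega), (Nat.le_of_dvd (by omega) h).trans hJ⟩, h⟩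
    rw [h3, Nat.sum_divisorsAntidiagonal (fun a b => f a * g b)]

lemma CC_eq (O : LFn) (N : ℕ) (a : ℕ → ℂ) (y : ℝ) :
    CC O N a y = 1 - ∑ n ∈ Finset.Icc 1 N, a n * S O.lam (y / n) := by
  unfold CC
  congr 1
  have h1 : ∀ k, cc O N a k = ∑ q ∈ k.divisorsAntidiagonal, (if q.1 ≤ N then a q.1 else 0) * O.lam q.2 := fun k => rfl
  simp only [h1]
  rw [conv_sum (fun m => if m ≤ N then a m else 0) O.lam (Y := max ⌊y⌋₊ N) ⌊y⌋₊ (le_max_left _ _)]
  have h2 : ∑ m ∈ Finset.Icc 1 (max ⌊y⌋₊ N), (if m ≤ N then a m else 0) * ∑ k ∈ Finset.Icc 1 (⌊y⌋₊ / m), O.lam k =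
      ∑ m ∈ Finset.Icc 1 N, (if m ≤ N then a m else 0) * ∑ k ∈ Finset.Icc 1 (⌊y⌋₊ / m), O.lam k := by
    symm
    refine Finset.sum_subset (Finset.Icc_subset_Icc le_rfl (le_max_right _ _)) fun m hm hm' => ?_
    rw [Finset.mem_Icc] at hm hm'
    rw [if_neg (fun h => hm' ⟨hm.1, h⟩), zero_mul]
  rw [h2]
  refine Finset.sum_congr rfl fun m hm => ?_
  rw [if_pos (Finset.mem_Icc.mp hm).2]
  unfold S
  rw [Nat.floor_div_natCast]

lemma nrm_mono {p σ σ' : ℝ} (hp : 0 ≤ p) (h : σ' ≤ σ) (f : ℝ → ℂ) : nrm p σ f ≤ nrm p σ' f := by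
  unfold nrm
  refine setLIntegral_mono_ae' measurableSet_Ioi (Eventually.of_forall fun y hy => ?_)
  have hy1 : (1:ℝ) ≤ y := le_of_lt hy
  refine ENNReal.ofReal_le_ofReal (mul_le_mul_of_nonneg_left ?_ (by positivity))
  exact Real.rpow_le_rpow_of_exponent_le hy1 (by nlinarith)

lemma memLp_tw {p σ : ℝ} (hp : 1 ≤ p) {f : ℝ → ℂ} (hf : Measurable f) :
    MemLp (tw σ f) (ENNReal.ofReal p) volume ↔ nrm p σ f ≠ ⊤ := by
  have hp0 : 0 < p := by linarith
  rw [nrm_tw hp]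
  constructor
  · intro h
    exact ENNReal.rpow_ne_top_of_nonneg hp0.le h.2.ne
  · intro h
    refine ⟨(tw_meas hf).aestronglyMeasurable, ?_⟩
    by_contra hcon
    rw [not_lt, top_le_iff] at hcon
    rw [hcon, ENNReal.top_rpow_of_pos hp0] at h
    exact h rfl

lemma nrm_one {p σ : ℝ} (hp : 1 ≤ p) (hσ : 0 < σ) : nrm p σ (fun _ => 1) ≠ ⊤ := by
  have h1 : IntegrableOn (fun y : ℝ => ‖(1:ℂ)‖ ^ p * y ^ (-(p * σ) - 1)) (Ioi 1) :=
    (integrableOn_Ioi_rpow_of_lt (by nlinarith) one_pos).const_mul _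
  have h2 := h1.2
  rw [hasFiniteIntegral_iff_ofReal] at h2
  · exact h2.ne
  · refine (ae_restrict_iff' measurableSet_Ioi).mpr (Eventually.of_forall fun y hy => ?_)
    have hy0 : (0:ℝ) < y := lt_trans one_pos hy
    show 0 ≤ ‖(1:ℂ)‖ ^ p * y ^ (-(p * σ) - 1)
    positivity

lemma CC_meas' (O : LFn) (N : ℕ) (a : ℕ → ℂ) : Measurable (CC O N a) := by
  have : CC O N a = fun y => 1 - ∑ n ∈ Finset.Icc 1 N, a n * S O.lam (y / n) := funext fun y => CC_eq O N a y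
  rw [this]
  refine measurable_const.sub (Finset.measurable_fun_sum _ fun n _ => ?_)
  exact ((S_meas _).comp (measurable_id.div_const _)).const_mul _

lemma mu_one (O : LFn) : O.mu 1 = 1 := by
  have h := O.inv 1 le_rfl
  simpa [O.lam_one] using h

theorem ul : J_UL := Pool.Agent.Q214.NL.t_UL Pool.Agent.Q124.NL.t_GZ
  (Pool.Agent.Q124.NL.t_PE Pool.Agent.Q124.NL.t_GZ) (Pool.Agent.Q277.NL.t_LP Pool.Agent.Q275.NL.HD.t_HD Pool.Agent.Q124.NL.t_ID)

/-- **sufficiency** -/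
theorem approx_of_zf (O : LFn) {θ : ℝ} (hθ : 0 ≤ θ) (hz : ZF O θ) {A : Set ℝ} (hA : ∀ θ ∈ A, 0 < θ ∧ θ ≤ 1)
    (hcl : ∀ n : ℕ, 1 ≤ n → O.mu n ≠ 0 → (1 / (n : ℝ)) ∈ closure A) {p σ : ℝ} (hp : 1 ≤ p) (hσ : θ < σ) :
    Approx O.lam p σ A := by
  have hp0 : 0 < p := by linarith
  -- a weight in the range of the library
  obtain ⟨σ', h1, h2, h3⟩ : ∃ σ' : ℝ, θ < σ' ∧ σ' < θ + 1 ∧ σ' ≤ σ := by
    rcases lt_or_ge σ (θ + 1) with h | h
    · exact ⟨σ, hσ, h, le_rfl⟩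
    · exact ⟨θ + 1 / 2, by linarith, by linarith, by linarith⟩
  have hσ0 : 0 < σ' := by linarith
  obtain ⟨C, hC, hU⟩ := ul O θ hθ hz p σ' ((σ' - θ) / 2) hp h1 h2 (by linarith)
  have hfin : ∀ N : ℕ, 1 ≤ N → nrm p σ' (CC O N (mobL O N)) ≠ ⊤ := by
    intro N hN
    have h4 := (hU N hN).1.2
    rw [hasFiniteIntegral_iff_ofReal] at h4
    · exact h4.ne
    · refine (ae_restrict_iff' measurableSet_Ioi).mpr (Eventually.of_forall fun y hy => ?_)
      have hy0 : (0:ℝ) < y := lt_trans one_pos hy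
      show 0 ≤ ‖CC O N (mobL O N) y‖ ^ p * y ^ (-(p * σ') - 1)
      positivity
  -- the summatory function has finite norm
  have hS : nrm p σ' (S O.lam) ≠ ⊤ := by
    have h4 := (memLp_tw hp (CC_meas' O 2 (mobL O 2))).mpr (hfin 2 (by norm_num))
    have h5 := (memLp_tw hp (measurable_const : Measurable (fun _ : ℝ => (1:ℂ)))).mpr (nrm_one hp hσ0)
    have h6 := (h5.sub h4).const_mul (2:ℂ)
    refine (memLp_tw hp (S_meas _)).mp (h6.ae_eq (Eventually.of_forall fun v => ?_))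
    have hm2 : mobL O 2 2 = 0 := by unfold mobL; norm_num
    have hm1 : mobL O 2 1 = 1 / 2 := by unfold mobL; rw [mu_one]; norm_num
    show 2 * ((tw σ' (fun _ => 1) - tw σ' (CC O 2 (mobL O 2))) v) = tw σ' (S O.lam) v
    rw [Pi.sub_apply]
    unfold tw
    by_cases hv : v ∈ Ioi (0:ℝ)
    · rw [indicator_of_mem hv, indicator_of_mem hv, indicator_of_mem hv, CC_eq]
      have : Finset.Icc 1 2 = {1, 2} := by decide
      rw [this, Finset.sum_pair (by norm_num), hm1, hm2]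
      push_cast
      rw [div_one]
      ring
    · rw [indicator_of_notMem hv, indicator_of_notMem hv, indicator_of_notMem hv]
      ring
  intro ε hε
  -- the approximation
  have hlim : Tendsto (fun N : ℕ => C * (N : ℝ) ^ (-((σ' - θ) / 2))) atTop (𝓝 (C * 0)) :=
    ((tendsto_rpow_neg_atTop (by linarith : 0 < (σ' - θ) / 2)).comp tendsto_natCast_atTop_atTop).const_mul C
  rw [mul_zero] at hlim
  have hε2 : 0 < (ε / 2) ^ (1 / p) := Real.rpow_pos_of_pos (by linarith) _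
  obtain ⟨N, hN1, hN2⟩ := ((hlim.eventually_lt_const hε2).and (eventually_ge_atTop 1)).exists
  obtain ⟨hI, hnl⟩ := hU N hN2
  have e1 : θ - σ' + (σ' - θ) / 2 = -((σ' - θ) / 2) := by ring
  rw [e1] at hnl
  have hlt : nl p σ' (CC O N (mobL O N)) < (ε / 2) ^ (1 / p) := lt_of_le_of_lt hnl hN1
  unfold nl at hlt
  have hJ0 : 0 ≤ ∫ y in Ioi (1 : ℝ), ‖CC O N (mobL O N) y‖ ^ p * y ^ (-(p * σ') - 1) := by
    refine setIntegral_nonneg measurableSet_Ioi fun y hy => ?_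
    have hy0 : (0:ℝ) < y := lt_trans one_pos hy
    positivity
  have hJ : ∫ y in Ioi (1 : ℝ), ‖CC O N (mobL O N) y‖ ^ p * y ^ (-(p * σ') - 1) < ε / 2 :=
    (Real.rpow_lt_rpow_iff hJ0 (by linarith) (by positivity)).mp hlt
  have hnrm : nrm p σ' (CC O N (mobL O N)) < ENNReal.ofReal ε := by
    rw [nrm_eq (CC_meas' O N _) (hfin N hN2)]
    exact (ENNReal.ofReal_lt_ofReal_iff hε).mpr (by linarith)
  set K : Finset ℕ := (Finset.Icc 1 N).filter (fun n => O.mu n ≠ 0) with hK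
  have hCC : CC O N (mobL O N) = fun y => 1 - ∑ k ∈ K, mobL O N k * S O.lam (y / k) := by
    funext y
    rw [CC_eq]
    congr 1
    symm
    refine Finset.sum_subset (Finset.filter_subset _ _) fun n hn hn' => ?_
    have : O.mu n = 0 := by
      by_contra hne
      exact hn' (Finset.mem_filter.mpr ⟨hn, hne⟩)
    unfold mobL
    rw [this]; ring
  rw [hCC] at hnrm
  obtain ⟨T, c, h4, h5⟩ := perturb hp hS hA (K := K) (fun k hk => by
    rw [hK, Finset.mem_filter, Finset.mem_Icc] at hk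
    exact ⟨hk.1.1, hcl k hk.1.1 hk.2⟩) hnrm
  exact ⟨T, c, h4, lt_of_le_of_lt (nrm_mono hp0.le h3 _) h5⟩

lemma lfn_inv (O : LFn) : Inv O.lam O.mu := O.inv

lemma lfn_ser (O : LFn) {s : ℂ} (hs : 2 < s.re) : O.L s = LSeries O.lam s := by
  have h1 := O.ser s hs.le
  have h2 : (fun n : ℕ => O.lam n * (n : ℂ) ^ (-s)) = fun n => LSeries.term O.lam s n := by
    funext n
    rw [LSeries.term_def]
    split_ifs with h
    · rw [h, O.lam_zero, zero_mul]
    · rw [Complex.cpow_neg, div_eq_mul_inv]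
  rw [h2] at h1
  exact h1.tsum_eq.symm

/-- **the classification** -/
theorem classify (O : LFn) {θ : ℝ} (hθ : 0 ≤ θ) {A : Set ℝ} (hA : ∀ θ ∈ A, 0 < θ ∧ θ ≤ 1) {p : ℝ} (hp : 1 ≤ p) :
    (∀ σ : ℝ, θ < σ → Approx O.lam p σ A) ↔
      (∀ s : ℂ, θ < s.re → O.L s ≠ 0) ∧ ∀ n : ℕ, 1 ≤ n → O.mu n ≠ 0 → (1 / (n : ℝ)) ∈ closure A := by
  constructor
  · intro h
    refine ⟨fun s hs => ?_, fun n hn hmu => ?_⟩
    · have h1 := h ((θ + s.re) / 2) (by linarith)
      exact zero_free_of_approx O.lam_sum hp hA h1 O.entire (fun s hs => lfn_ser O hs) (by linarith)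
    · exact closure_of_approx (lfn_inv O) hp (by linarith : 0 ≤ θ + 1) hA (h (θ + 1) (by linarith)) hn hmu
  · rintro ⟨h1, h2⟩ σ hσ
    exact approx_of_zf O hθ h1 hA h2 hp hσ

end

end Pool.Agent.Helper39.ND
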