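import Mathlib

/-!
Combinations of the dilates `y ↦ S(θ y)` of the summatory function of a sequence with a Dirichlet inverse: the
coefficients are determined locally.
-/

set_option autoImplicit false

open MeasureTheory Filter Topology Set
open scoped ENNReal

namespace Pool.Agent.Helper39.ND

noncomputable section

/-- `mu` is the Dirichlet inverse of `lam` -/
def Inv (lam mu : ℕ → ℂ) : Prop :=
  ∀ n : ℕ, 1 ≤ n → ∑ q ∈ n.divisorsAntidiagonal, lam q.1 * mu q.2 = if n = 1 then 1 else 0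

/-- the summatory function -/
def S (lam : ℕ → ℂ) (z : ℝ) : ℂ := ∑ k ∈ Finset.Icc 1 ⌊z⌋₊, lam k

/-- `1 - ∑ c θ S(θ y)` -/
def err (lam : ℕ → ℂ) (T : Finset ℝ) (c : ℝ → ℂ) (y : ℝ) : ℂ := 1 - ∑ θ ∈ T, c θ * S lam (θ * y)

/-- the `p`-th power of the norm of `L^p((1,∞), y^(-pσ-1) dy)` -/
def nrm (p σ : ℝ) (f : ℝ → ℂ) : ℝ≥0∞ :=
  ∫⁻ y in Ioi (1 : ℝ), ENNReal.ofReal (‖f y‖ ^ p * y ^ (-(p * σ) - 1))

/-- the indicator function of `[1,∞)` is a limit of combinations with dilations in `A` -/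
def Approx (lam : ℕ → ℂ) (p σ : ℝ) (A : Set ℝ) : Prop :=
  ∀ ε : ℝ, 0 < ε → ∃ (T : Finset ℝ) (c : ℝ → ℂ), (∀ θ ∈ T, θ ∈ A) ∧ nrm p σ (err lam T c) < ENNReal.ofReal ε

lemma S_zero (lam : ℕ → ℂ) {z : ℝ} (hz : z < 1) : S lam z = 0 := by
  unfold S
  rw [Nat.floor_eq_zero.mpr hz]
  simp

lemma S_meas (lam : ℕ → ℂ) : Measurable (S lam) := by
  have : S lam = (fun n : ℕ => ∑ k ∈ Finset.Icc 1 n, lam k) ∘ (fun z : ℝ => ⌊z⌋₊) := rfl
  rw [this]
  exact (measurable_from_nat).comp Nat.measurable_floor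

lemma S_le (lam : ℕ → ℂ) {z : ℝ} {N : ℕ} (hz : z < N + 1) : ‖S lam z‖ ≤ ∑ k ∈ Finset.Icc 1 N, ‖lam k‖ := by
  unfold S
  refine (norm_sum_le _ _).trans (Finset.sum_le_sum_of_subset_of_nonneg ?_ fun _ _ _ => norm_nonneg _)
  refine Finset.Icc_subset_Icc le_rfl ?_
  rcases lt_or_ge z 0 with h | h
  · rw [Nat.floor_of_nonpos h.le]; exact Nat.zero_le _
  · have : ⌊z⌋₊ < N + 1 := by
      rw [Nat.floor_lt h]; exact_mod_cast hz
    omega

lemma err_meas (lam : ℕ → ℂ) (T : Finset ℝ) (c : ℝ → ℂ) : Measurable (err lam T c) := by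
  unfold err
  refine measurable_const.sub (Finset.measurable_fun_sum _ fun θ _ => ?_)
  exact ((S_meas lam).comp (measurable_const_mul θ)).const_mul _

lemma err_bd (lam : ℕ → ℂ) {T : Finset ℝ} (hT : ∀ θ ∈ T, 0 < θ ∧ θ ≤ 1) (c : ℝ → ℂ) (N : ℕ) :
    ∃ B : ℝ, 0 ≤ B ∧ ∀ y : ℝ, y < N + 1 → ‖err lam T c y‖ ≤ B := by
  refine ⟨1 + ∑ θ ∈ T, ‖c θ‖ * ∑ k ∈ Finset.Icc 1 N, ‖lam k‖, by positivity, fun y hy => ?_⟩
  unfold err
  refine (norm_sub_le _ _).trans ?_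
  rw [norm_one]
  gcongr
  refine (norm_sum_le _ _).trans (Finset.sum_le_sum fun θ hθ => ?_)
  rw [norm_mul]
  gcongr
  refine S_le lam ?_
  have h := hT θ hθ
  rcases lt_or_ge y 0 with h1 | h1
  · have : θ * y ≤ 0 := mul_nonpos_of_nonneg_of_nonpos h.1.le h1.le
    have : (0:ℝ) ≤ N := Nat.cast_nonneg N
    linarith
  · nlinarith [h.2]

/-- Dirichlet inversion of the summatory function, on integers -/
lemma inv_nat {lam mu : ℕ → ℂ} (h : Inv lam mu) {Y : ℕ} : ∀ J : ℕ, J ≤ Y →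
    ∑ m ∈ Finset.Icc 1 Y, mu m * ∑ k ∈ Finset.Icc 1 (J / m), lam k = if J = 0 then 0 else 1 := by
  intro J
  induction J with
  | zero => intro _; simp
  | succ J ih =>
    intro hJ
    have h1 := ih (by omega)
    have h2 : ∑ m ∈ Finset.Icc 1 Y, mu m * ∑ k ∈ Finset.Icc 1 ((J + 1) / m), lam k =
        ∑ m ∈ Finset.Icc 1 Y, mu m * ∑ k ∈ Finset.Icc 1 (J / m), lam k +
        ∑ m ∈ Finset.Icc 1 Y, (if m ∣ J + 1 then mu m * lam ((J + 1) / m) else 0) := by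
      rw [← Finset.sum_add_distrib]
      refine Finset.sum_congr rfl fun m hm => ?_
      rw [Nat.succ_div]
      split_ifs with hd
      · rw [Finset.sum_Icc_succ_top (Nat.le_add_left 1 _)]
        ring
      · simp
    rw [h2, h1, ← Finset.sum_filter]
    have h3 : (Finset.Icc 1 Y).filter (fun k => k ∣ J + 1) = (J + 1).divisors := by
      ext k
      simp only [Finset.mem_filter, Finset.mem_Icc, Nat.mem_divisors]
      constructor
      · rintro ⟨_, h⟩; exact ⟨h, by omega⟩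
      · rintro ⟨h, _⟩
        exact ⟨⟨Nat.pos_of_dvd_of_pos h (by omega), (Nat.le_of_dvd (by omega) h).trans hJ⟩, h⟩
    rw [h3]
    have h4 := h (J + 1) (by omega)
    rw [Nat.sum_divisorsAntidiagonal' (fun a b => lam a * mu b)] at h4
    have h5 : ∑ x ∈ (J + 1).divisors, mu x * lam ((J + 1) / x) = if J + 1 = 1 then 1 else 0 := by
      rw [← h4]
      exact Finset.sum_congr rfl fun x _ => mul_comm _ _
    rw [h5]
    rcases Nat.eq_zero_or_pos J with rfl | h0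
    · simp
    · rw [if_neg (by omega), if_neg (by omega), if_neg (by omega), add_zero]

lemma inv_real {lam mu : ℕ → ℂ} (h : Inv lam mu) {Y : ℕ} {z : ℝ} (hz : ⌊z⌋₊ ≤ Y) :
    ∑ m ∈ Finset.Icc 1 Y, mu m * S lam (z / m) = if 1 ≤ z then 1 else 0 := by
  have h1 := inv_nat h ⌊z⌋₊ hz
  have h2 : ∀ m : ℕ, S lam (z / m) = ∑ k ∈ Finset.Icc 1 (⌊z⌋₊ / m), lam k := by
    intro m
    unfold S
    rw [Nat.floor_div_natCast]
  simp only [h2]
  rw [h1]
  by_cases h3 : 1 ≤ z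
  · rw [if_pos h3, if_neg]
    rw [Nat.floor_eq_zero]; exact not_lt.mpr h3
  · rw [if_neg h3, if_pos]
    exact Nat.floor_eq_zero.mpr (not_le.mp h3)

/-- inversion of a combination -/
lemma comb_inv {lam mu : ℕ → ℂ} (h : Inv lam mu) {T : Finset ℝ} (hT : ∀ θ ∈ T, 0 < θ ∧ θ ≤ 1) (c : ℝ → ℂ)
    {y : ℝ} (hy : 0 ≤ y) {Y : ℕ} (hY : ⌊y⌋₊ ≤ Y) :
    ∑ m ∈ Finset.Icc 1 Y, mu m * err lam T c (y / m) =
      ∑ m ∈ Finset.Icc 1 Y, mu m - ∑ θ ∈ T.filter (fun θ => 1 ≤ θ * y), c θ := by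
  have h1 : ∀ m : ℕ, mu m * err lam T c (y / m) = mu m - ∑ θ ∈ T, c θ * (mu m * S lam (θ * y / m)) := by
    intro m
    unfold err
    rw [mul_sub, mul_one, Finset.mul_sum]
    congr 1
    refine Finset.sum_congr rfl fun θ _ => ?_
    rw [mul_div_assoc]; ring
  simp only [h1]
  rw [Finset.sum_sub_distrib, Finset.sum_comm]
  congr 1
  rw [Finset.sum_filter]
  refine Finset.sum_congr rfl fun θ hθ => ?_
  rw [← Finset.mul_sum, inv_real h]
  · split_ifs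
    · rw [mul_one]
    · rw [mul_zero]
  · refine le_trans (Nat.floor_le_floor ?_) hY
    have := hT θ hθ
    nlinarith [this.2]

/-- the pointwise inequality near `n` -/
lemma local_pt {lam mu : ℕ → ℂ} (h : Inv lam mu) {T : Finset ℝ} (hT : ∀ θ ∈ T, 0 < θ ∧ θ ≤ 1) (c : ℝ → ℂ)
    {n : ℕ} (hn : 1 ≤ n) {δ : ℝ} (hδ : δ ≤ 1 / 2) (hgap : ∀ θ ∈ T, ¬ |1 / θ - n| < δ) {t : ℝ} (ht0 : 0 < t)
    (ht : t < δ) :
    ‖mu n‖ ≤ ∑ m ∈ Finset.Icc 1 n, ‖mu m‖ * ‖err lam T c ((n + t) / m)‖ +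
      ∑ m ∈ Finset.Icc 1 (n - 1), ‖mu m‖ * ‖err lam T c ((n - t) / m)‖ := by
  have hnr : (1:ℝ) ≤ n := by exact_mod_cast hn
  have e1 := comb_inv h hT c (y := n + t) (by linarith) (Y := n) (by
    have : ⌊(n:ℝ) + t⌋₊ < n + 1 := by
      rw [Nat.floor_lt (by linarith)]; push_cast; linarith
    omega)
  have e2 := comb_inv h hT c (y := n - t) (by linarith) (Y := n - 1) (by
    have : ⌊(n:ℝ) - t⌋₊ < n := by
      rw [Nat.floor_lt (by linarith)]; linarith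
    omega)
  have hfil : T.filter (fun θ => 1 ≤ θ * ((n:ℝ) + t)) = T.filter (fun θ => 1 ≤ θ * ((n:ℝ) - t)) := by
    refine Finset.filter_congr fun θ hθ => ?_
    have h0 := (hT θ hθ).1
    constructor
    · intro h1
      by_contra hcon
      push Not at hcon
      have h2 : 1 / θ ≤ n + t := by rw [div_le_iff₀ h0]; linarith
      have h3 : n - t < 1 / θ := by rw [lt_div_iff₀ h0]; linarith
      exact hgap θ hθ (abs_lt.mpr ⟨by linarith, by linarith⟩)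
    · intro h1; nlinarith
  rw [hfil] at e1
  have hsum : ∑ m ∈ Finset.Icc 1 n, mu m = ∑ m ∈ Finset.Icc 1 (n - 1), mu m + mu n := by
    obtain ⟨k, rfl⟩ : ∃ k, n = k + 1 := ⟨n - 1, by omega⟩
    rw [Finset.sum_Icc_succ_top (by omega), Nat.add_sub_cancel]
  have e3 : mu n = ∑ m ∈ Finset.Icc 1 n, mu m * err lam T c ((n + t) / m) -
      ∑ m ∈ Finset.Icc 1 (n - 1), mu m * err lam T c ((n - t) / m) := by
    rw [e1, e2, hsum]; ring
  calc ‖mu n‖ = ‖∑ m ∈ Finset.Icc 1 n, mu m * err lam T c ((n + t) / m) -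
      ∑ m ∈ Finset.Icc 1 (n - 1), mu m * err lam T c ((n - t) / m)‖ := by rw [← e3]
    _ ≤ ‖∑ m ∈ Finset.Icc 1 n, mu m * err lam T c ((n + t) / m)‖ +
      ‖∑ m ∈ Finset.Icc 1 (n - 1), mu m * err lam T c ((n - t) / m)‖ := norm_sub_le _ _
    _ ≤ _ := by
      refine add_le_add ?_ ?_
      · refine (norm_sum_le _ _).trans (le_of_eq (Finset.sum_congr rfl fun m _ => norm_mul _ _))
      · refine (norm_sum_le _ _).trans (le_of_eq (Finset.sum_congr rfl fun m _ => norm_mul _ _))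

lemma err_int (lam : ℕ → ℂ) {T : Finset ℝ} (hT : ∀ θ ∈ T, 0 < θ ∧ θ ≤ 1) (c : ℝ → ℂ) (a b : ℝ) :
    IntervalIntegrable (fun y => ‖err lam T c y‖) volume a b := by
  obtain ⟨N, hN⟩ := exists_nat_gt (max a b)
  obtain ⟨B, hB0, hB⟩ := err_bd lam hT c N
  refine (intervalIntegrable_const (c := B)).mono_fun' ((err_meas lam T c).norm.aestronglyMeasurable) ?_
  refine (ae_restrict_iff' measurableSet_uIoc).mpr (Eventually.of_forall fun x hx => ?_)
  have hx2 : x ≤ max a b := hx.2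
  simpa using hB x (by linarith)

lemma err_seg {lam : ℕ → ℂ} {T : Finset ℝ} (hT : ∀ θ ∈ T, 0 < θ ∧ θ ≤ 1) (c : ℝ → ℂ) {a b a' b' : ℝ} (h0 : a' ≤ a)
    (hab : a ≤ b) (h1 : b ≤ b') :
    ∫ x in a..b, ‖err lam T c x‖ ≤ ∫ x in a'..b', ‖err lam T c x‖ :=
  intervalIntegral.integral_mono_interval h0 hab h1
    (Eventually.of_forall fun _ => norm_nonneg _) (err_int lam hT c a' b')

lemma err_int_shift (lam : ℕ → ℂ) {T : Finset ℝ} (hT : ∀ θ ∈ T, 0 < θ ∧ θ ≤ 1) (c : ℝ → ℂ) (m d a b : ℝ) :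
    IntervalIntegrable (fun t => ‖err lam T c (m * t + d)‖) volume a b := by
  have hcont : ContinuousOn (fun t => m * t + d) (uIcc a b) := by fun_prop
  obtain ⟨x0, -, hx0⟩ := isCompact_uIcc.exists_isMaxOn nonempty_uIcc hcont
  obtain ⟨N, hN⟩ := exists_nat_gt (m * x0 + d)
  obtain ⟨B, hB0, hB⟩ := err_bd lam hT c N
  refine (intervalIntegrable_const (c := B)).mono_fun'
    (((err_meas lam T c).comp (by fun_prop : Measurable fun t => m * t + d)).norm.aestronglyMeasurable) ?_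
  refine (ae_restrict_iff' measurableSet_uIoc).mpr (Eventually.of_forall fun x hx => ?_)
  have hx2 : m * x + d ≤ m * x0 + d := hx0 (uIoc_subset_uIcc hx)
  simpa using hB _ (by linarith)

/-- change of variables -/
lemma shift_le {lam : ℕ → ℂ} {T : Finset ℝ} (hT : ∀ θ ∈ T, 0 < θ ∧ θ ≤ 1) (c : ℝ → ℂ) {m a b : ℝ} (hm : 1 ≤ m)
    {n s δ : ℝ} (hs : s = 1 ∨ s = -1) (hδ : 0 ≤ δ) (ha : a * m ≤ n + s * δ) (ha' : a * m ≤ n)
    (hb : n + s * δ ≤ b * m) (hb' : n ≤ b * m) :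
    ∫ t in (0 : ℝ)..δ, ‖err lam T c ((n + s * t) / m)‖ ≤ m * ∫ x in a..b, ‖err lam T c x‖ := by
  have hm0 : 0 < m := by linarith
  have e0 : ∀ t : ℝ, (n + s * t) / m = (s / m) * t + n / m := by intro t; field_simp; ring
  simp only [e0]
  have hsm : s / m ≠ 0 := by
    rcases hs with rfl | rfl <;> positivity
  rw [intervalIntegral.integral_comp_mul_add (fun x => ‖err lam T c x‖) hsm, smul_eq_mul]
  have e1 : s / m * 0 + n / m = n / m := by ring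
  have e2 : s / m * δ + n / m = (n + s * δ) / m := by field_simp; ring
  rw [e1, e2, inv_div]
  rcases hs with rfl | rfl
  · rw [div_one]
    refine mul_le_mul_of_nonneg_left (err_seg hT c ?_ ?_ ?_) hm0.le
    · rw [le_div_iff₀ hm0]; exact ha'
    · gcongr; linarith
    · rw [div_le_iff₀ hm0]; exact hb
  · rw [intervalIntegral.integral_symm]
    have : m / -1 * -∫ x in (n + -1 * δ) / m..n / m, ‖err lam T c x‖ =
        m * ∫ x in (n + -1 * δ) / m..n / m, ‖err lam T c x‖ := by ring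
    rw [this]
    refine mul_le_mul_of_nonneg_left (err_seg hT c ?_ ?_ ?_) hm0.le
    · rw [le_div_iff₀ hm0]; exact ha
    · gcongr; linarith
    · rw [div_le_iff₀ hm0]; exact hb'

/-- **the local lower bound** -/
theorem local_bound {lam mu : ℕ → ℂ} (h : Inv lam mu) {T : Finset ℝ} (hT : ∀ θ ∈ T, 0 < θ ∧ θ ≤ 1) (c : ℝ → ℂ)
    {n : ℕ} (hn : 1 ≤ n) {δ : ℝ} (hδ0 : 0 < δ) (hδ : δ ≤ 1 / 2) (hgap : ∀ θ ∈ T, ¬ |1 / θ - n| < δ) :
    δ * ‖mu n‖ ≤ (2 * n * ∑ m ∈ Finset.Icc 1 n, ‖mu m‖) * ∫ x in (1 : ℝ)..n + 1, ‖err lam T c x‖ := by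
  have hnr : (1:ℝ) ≤ n := by exact_mod_cast hn
  set J := ∫ x in (1 : ℝ)..n + 1, ‖err lam T c x‖ with hJ
  have hJ0 : 0 ≤ J := intervalIntegral.integral_nonneg (by linarith) fun x _ => norm_nonneg _
  have i1 : ∀ (s : ℝ) (m : ℕ), IntervalIntegrable (fun t : ℝ => ‖mu m‖ * ‖err lam T c ((n + s * t) / m)‖) volume 0 δ := by
    intro s m
    refine IntervalIntegrable.const_mul ?_ _
    have := err_int_shift lam hT c (s / m) (n / m) 0 δ
    refine this.congr (fun t _ => ?_)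
    show ‖err lam T c (s / m * t + n / m)‖ = ‖err lam T c ((n + s * t) / m)‖
    congr 2
    ring
  have isum : ∀ (s : ℝ) (M : ℕ), IntervalIntegrable (fun t : ℝ => ∑ m ∈ Finset.Icc 1 M,
      ‖mu m‖ * ‖err lam T c ((n + s * t) / m)‖) volume 0 δ := by
    intro s M
    have := IntervalIntegrable.sum (Finset.Icc 1 M) (fun m _ => i1 s m)
    refine this.congr (fun t _ => ?_)
    simp [Finset.sum_apply]
  have h1 : δ * ‖mu n‖ ≤ ∫ t in (0:ℝ)..δ, (∑ m ∈ Finset.Icc 1 n, ‖mu m‖ * ‖err lam T c ((n + 1 * t) / m)‖ +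
      ∑ m ∈ Finset.Icc 1 (n - 1), ‖mu m‖ * ‖err lam T c ((n + (-1) * t) / m)‖) := by
    have h2 : ∫ t in (0:ℝ)..δ, ‖mu n‖ = δ * ‖mu n‖ := by simp
    rw [← h2]
    refine intervalIntegral.integral_mono_on_of_le_Ioo hδ0.le intervalIntegrable_const
      ((isum 1 n).add (isum (-1) (n - 1))) fun t ht => ?_
    have h3 := local_pt h hT c hn hδ hgap ht.1 ht.2
    simp only [one_mul, neg_one_mul, ← sub_eq_add_neg]
    exact h3
  rw [intervalIntegral.integral_add (isum 1 n) (isum (-1) (n - 1)),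
    intervalIntegral.integral_finsetSum (fun m _ => i1 1 m),
    intervalIntegral.integral_finsetSum (fun m _ => i1 (-1) m)] at h1
  have hb : ∀ s : ℝ, (s = 1 ∨ s = -1) → ∀ M : ℕ, M ≤ n → (s = -1 → M ≤ n - 1) →
      ∑ m ∈ Finset.Icc 1 M, ∫ t in (0:ℝ)..δ, ‖mu m‖ * ‖err lam T c ((n + s * t) / m)‖ ≤
      n * (∑ m ∈ Finset.Icc 1 n, ‖mu m‖) * J := by
    intro s hs M hM hM'
    have h2 : ∀ m ∈ Finset.Icc 1 M, ∫ t in (0:ℝ)..δ, ‖mu m‖ * ‖err lam T c ((n + s * t) / m)‖ ≤ ‖mu m‖ * (n * J) := by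
      intro m hm
      rw [Finset.mem_Icc] at hm
      have hm1 : (1:ℝ) ≤ m := by exact_mod_cast hm.1
      have hmn : (m:ℝ) ≤ n := by exact_mod_cast hm.2.trans hM
      rw [intervalIntegral.integral_const_mul]
      refine mul_le_mul_of_nonneg_left ?_ (norm_nonneg _)
      refine (shift_le hT c (a := 1) (b := n + 1) hm1 hs hδ0.le ?_ ?_ ?_ ?_).trans
        (mul_le_mul_of_nonneg_right hmn hJ0)
      · rw [one_mul]
        rcases hs with rfl | rfl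
        · linarith
        · have h5 := hM' rfl
          have h6 : m + 1 ≤ n := by omega
          have h7 : (m:ℝ) + 1 ≤ n := by exact_mod_cast h6
          linarith
      · linarith
      · rcases hs with rfl | rfl <;> nlinarith
      · nlinarith
    refine (Finset.sum_le_sum h2).trans ?_
    rw [← Finset.sum_mul]
    have h3 : ∑ m ∈ Finset.Icc 1 M, ‖mu m‖ ≤ ∑ m ∈ Finset.Icc 1 n, ‖mu m‖ :=
      Finset.sum_le_sum_of_subset_of_nonneg (Finset.Icc_subset_Icc le_rfl hM) fun _ _ _ => norm_nonneg _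
    calc (∑ m ∈ Finset.Icc 1 M, ‖mu m‖) * (n * J) ≤ (∑ m ∈ Finset.Icc 1 n, ‖mu m‖) * (n * J) :=
          mul_le_mul_of_nonneg_right h3 (by positivity)
      _ = _ := by ring
  have b1 := hb 1 (Or.inl rfl) n le_rfl (fun h => by norm_num at h)
  have b2 := hb (-1) (Or.inr rfl) (n - 1) (by omega) (fun _ => le_rfl)
  linarith

/-- from the `L^p` norm to the `L^1` norm -/
lemma tau_ineq {x τ p : ℝ} (hx : 0 ≤ x) (hτ : 0 < τ) (hp : 1 ≤ p) : x ≤ τ + τ ^ (1 - p) * x ^ p := by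
  rcases le_or_gt x τ with h | h
  · have : 0 ≤ τ ^ (1 - p) * x ^ p := by positivity
    linarith
  · have h1 : τ ^ (p - 1) ≤ x ^ (p - 1) := Real.rpow_le_rpow hτ.le h.le (by linarith)
    have h2 : x ^ p = x ^ (p - 1) * x := by
      rw [← Real.rpow_add_one (by linarith)]; congr 1; ring
    have h3 : τ ^ (1 - p) * τ ^ (p - 1) = 1 := by
      rw [← Real.rpow_add hτ]; simp
    have h4 : 0 < τ ^ (1 - p) := Real.rpow_pos_of_pos hτ _
    have h5 : x ≤ τ ^ (1 - p) * x ^ p := by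
      rw [h2, ← mul_assoc]
      have : 1 ≤ τ ^ (1 - p) * x ^ (p - 1) := by
        calc (1:ℝ) = τ ^ (1 - p) * τ ^ (p - 1) := h3.symm
          _ ≤ _ := mul_le_mul_of_nonneg_left h1 h4.le
      nlinarith
    linarith

/-- the weighted form -/
lemma young {x y τ p σ b : ℝ} (hx : 0 ≤ x) (hy : 1 ≤ y) (hτ : 0 < τ) (hp : 1 ≤ p) (hb : σ ≤ b) :
    x * y ^ (-(b + 1)) ≤ τ * y ^ (σ - b - 1) + τ ^ (1 - p) * (x ^ p * y ^ (-(p * σ) - 1)) := by
  have hy0 : 0 < y := by linarith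
  have h1 := tau_ineq (x := x * y ^ (-σ)) (τ := τ) (by positivity) hτ hp
  have h2 := mul_le_mul_of_nonneg_right h1 (Real.rpow_nonneg hy0.le (σ - b - 1))
  have e1 : x * y ^ (-σ) * y ^ (σ - b - 1) = x * y ^ (-(b + 1)) := by
    rw [mul_assoc, ← Real.rpow_add hy0]; congr 2; ring
  have e2 : (x * y ^ (-σ)) ^ p = x ^ p * y ^ (-(p * σ)) := by
    rw [Real.mul_rpow hx (Real.rpow_nonneg hy0.le _), ← Real.rpow_mul hy0.le]; congr 2; ring
  rw [e1, add_mul, e2] at h2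
  refine h2.trans (add_le_add le_rfl ?_)
  have e3 : y ^ (-(p * σ)) * y ^ (σ - b - 1) ≤ y ^ (-(p * σ) - 1) := by
    rw [← Real.rpow_add hy0]
    exact Real.rpow_le_rpow_of_exponent_le hy (by linarith)
  have e4 : 0 < τ ^ (1 - p) := Real.rpow_pos_of_pos hτ _
  calc τ ^ (1 - p) * (x ^ p * y ^ (-(p * σ))) * y ^ (σ - b - 1)
      = τ ^ (1 - p) * (x ^ p * (y ^ (-(p * σ)) * y ^ (σ - b - 1))) := by ring
    _ ≤ _ := by gcongr

lemma nrm_int {p σ : ℝ} {f : ℝ → ℂ} (hf : Measurable f) (h : nrm p σ f ≠ ⊤) :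
    IntegrableOn (fun y : ℝ => ‖f y‖ ^ p * y ^ (-(p * σ) - 1)) (Ioi 1) := by
  refine ⟨?_, ?_⟩
  · exact ((hf.norm.pow_const p).mul (measurable_id.pow_const _)).aestronglyMeasurable
  · rw [hasFiniteIntegral_iff_ofReal]
    · exact lt_of_le_of_ne le_top h
    · refine (ae_restrict_iff' measurableSet_Ioi).mpr (Eventually.of_forall fun y hy => ?_)
      have hy0 : (0:ℝ) < y := lt_trans one_pos hy
      show 0 ≤ ‖f y‖ ^ p * y ^ (-(p * σ) - 1)
      positivity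

lemma nrm_eq {p σ : ℝ} {f : ℝ → ℂ} (hf : Measurable f) (h : nrm p σ f ≠ ⊤) :
    nrm p σ f = ENNReal.ofReal (∫ y in Ioi (1:ℝ), ‖f y‖ ^ p * y ^ (-(p * σ) - 1)) := by
  rw [ofReal_integral_eq_lintegral_ofReal (nrm_int hf h)]
  · rfl
  · refine (ae_restrict_iff' measurableSet_Ioi).mpr (Eventually.of_forall fun y hy => ?_)
    have hy0 : (0:ℝ) < y := lt_trans one_pos hy
    show 0 ≤ ‖f y‖ ^ p * y ^ (-(p * σ) - 1)
    positivity

lemma nrm_lt {p σ ε : ℝ} {f : ℝ → ℂ} (hf : Measurable f) (h : nrm p σ f < ENNReal.ofReal ε) :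
    IntegrableOn (fun y : ℝ => ‖f y‖ ^ p * y ^ (-(p * σ) - 1)) (Ioi 1) ∧
    ∫ y in Ioi (1:ℝ), ‖f y‖ ^ p * y ^ (-(p * σ) - 1) < ε := by
  have h1 : nrm p σ f ≠ ⊤ := (lt_of_lt_of_le h le_top).ne
  refine ⟨nrm_int hf h1, ?_⟩
  rw [nrm_eq hf h1] at h
  exact (ENNReal.ofReal_lt_ofReal_iff'.mp h).1

lemma err_loc {p σ : ℝ} (hp : 1 ≤ p) (hσ : 0 ≤ σ) {lam : ℕ → ℂ} {T : Finset ℝ} (hT : ∀ θ ∈ T, 0 < θ ∧ θ ≤ 1)
    (c : ℝ → ℂ) (n : ℕ) {τ : ℝ} (hτ : 0 < τ)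
    (hI : IntegrableOn (fun y : ℝ => ‖err lam T c y‖ ^ p * y ^ (-(p * σ) - 1)) (Ioi 1)) :
    ∫ x in (1 : ℝ)..n + 1, ‖err lam T c x‖ ≤ ((n:ℝ) + 1) ^ (σ + 1) * (τ * n +
      τ ^ (1 - p) * ∫ y in Ioi (1:ℝ), ‖err lam T c y‖ ^ p * y ^ (-(p * σ) - 1)) := by
  have hn0 : (0:ℝ) ≤ n := Nat.cast_nonneg n
  have hle : (1:ℝ) ≤ n + 1 := by linarith
  have hi := (err_int lam hT c 1 (n + 1))
  rw [intervalIntegral.integral_of_le hle]
  rw [intervalIntegrable_iff_integrableOn_Ioc_of_le hle] at hi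
  have hI2 := hI.mono_set (Ioc_subset_Ioi_self : Ioc (1:ℝ) (n + 1) ⊆ Ioi 1)
  have h1 : ∫ x in Ioc (1:ℝ) (n + 1), ‖err lam T c x‖ ≤ ∫ x in Ioc (1:ℝ) (n + 1),
      ((n:ℝ) + 1) ^ (σ + 1) * (τ + τ ^ (1 - p) * (‖err lam T c x‖ ^ p * x ^ (-(p * σ) - 1))) := by
    refine setIntegral_mono_on hi ?_ measurableSet_Ioc fun x hx => ?_
    · refine Integrable.const_mul ?_ _
      exact (integrable_const _).add (hI2.const_mul _)
    · have hx0 : 0 < x := lt_trans one_pos hx.1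
      have h2 := young (norm_nonneg (err lam T c x)) hx.1.le hτ hp (le_refl σ)
      have h3 : x ^ (σ - σ - 1) ≤ 1 := Real.rpow_le_one_of_one_le_of_nonpos hx.1.le (by linarith)
      have h4 : x ^ (σ + 1) ≤ ((n:ℝ) + 1) ^ (σ + 1) := Real.rpow_le_rpow hx0.le hx.2 (by linarith)
      have h5 : ‖err lam T c x‖ = x ^ (σ + 1) * (‖err lam T c x‖ * x ^ (-(σ + 1))) := by
        rw [mul_comm, mul_assoc, ← Real.rpow_add hx0]; simp
      rw [h5]
      rw [← h5]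
      calc ‖err lam T c x‖ = x ^ (σ + 1) * (‖err lam T c x‖ * x ^ (-(σ + 1))) := h5
        _ ≤ ((n:ℝ) + 1) ^ (σ + 1) * (‖err lam T c x‖ * x ^ (-(σ + 1))) :=
            mul_le_mul_of_nonneg_right h4 (by positivity)
        _ ≤ _ := by
            refine mul_le_mul_of_nonneg_left (h2.trans ?_) (by positivity)
            refine add_le_add ?_ le_rfl
            calc τ * x ^ (σ - σ - 1) ≤ τ * 1 := mul_le_mul_of_nonneg_left h3 hτ.le
              _ = τ := mul_one _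
  refine h1.trans ?_
  rw [integral_const_mul]
  refine mul_le_mul_of_nonneg_left ?_ (by positivity)
  rw [integral_add (integrable_const _) (hI2.const_mul _), integral_const_mul]
  refine add_le_add ?_ ?_
  · simp [Measure.real, Real.volume_Ioc]
    rw [mul_comm]
  · refine mul_le_mul_of_nonneg_left ?_ (by positivity)
    refine setIntegral_mono_set hI ?_ (Eventually.of_forall (Ioc_subset_Ioi_self : Ioc (1:ℝ) (n + 1) ⊆ Ioi 1))
    refine (ae_restrict_iff' measurableSet_Ioi).mpr (Eventually.of_forall fun y hy => ?_)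
    have hy0 : (0:ℝ) < y := lt_trans one_pos hy
    show 0 ≤ ‖err lam T c y‖ ^ p * y ^ (-(p * σ) - 1)
    positivity

/-- **necessity of the dilations `1 / n`, `mu n ≠ 0`** -/
theorem closure_of_approx {lam mu : ℕ → ℂ} (h : Inv lam mu) {p σ : ℝ} (hp : 1 ≤ p) (hσ : 0 ≤ σ) {A : Set ℝ}
    (hA : ∀ θ ∈ A, 0 < θ ∧ θ ≤ 1) (ha : Approx lam p σ A) {n : ℕ} (hn0 : 1 ≤ n) (hn : mu n ≠ 0) :
    (1 / (n : ℝ)) ∈ closure A := by
  by_contra hcl
  have hnr : (1:ℝ) ≤ n := by exact_mod_cast hn0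
  -- a gap around `n` for the inverses
  obtain ⟨δ, hδ0, hδ1, hgap⟩ : ∃ δ : ℝ, 0 < δ ∧ δ ≤ 1 / 2 ∧ ∀ θ ∈ A, ¬ |1 / θ - n| < δ := by
    rw [Metric.mem_closure_iff] at hcl
    push Not at hcl
    obtain ⟨δ₀, hδ₀, hd⟩ := hcl
    refine ⟨min (1 / 2) δ₀, lt_min (by norm_num) hδ₀, min_le_left _ _, fun θ hθ hlt => ?_⟩
    have h0 := hA θ hθ
    have h5 := hd θ hθ
    rw [Real.dist_eq] at h5
    have h6 : |1 / (n:ℝ) - θ| = (θ / n) * |1 / θ - n| := by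
      have e : 1 / (n:ℝ) - θ = (θ / n) * (1 / θ - n) := by
        have := h0.1.ne'
        field_simp
      rw [e, abs_mul, abs_of_pos (by have := h0.1; positivity)]
    have h7 : θ / n ≤ 1 := by rw [div_le_one (by linarith)]; linarith [h0.2]
    have h8 : |1 / (n:ℝ) - θ| ≤ |1 / θ - n| := by
      rw [h6]; exact mul_le_of_le_one_left (abs_nonneg _) h7
    have h9 : |1 / θ - n| < δ₀ := lt_of_lt_of_le hlt (min_le_right _ _)
    linarith
  have hmu : 0 < ‖mu n‖ := norm_pos_iff.mpr hn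
  set M : ℝ := ∑ m ∈ Finset.Icc 1 n, ‖mu m‖ with hM
  have hM0 : 0 < M := by
    refine lt_of_lt_of_le hmu ?_
    exact Finset.single_le_sum (f := fun m => ‖mu m‖) (fun _ _ => norm_nonneg _) (Finset.mem_Icc.mpr ⟨hn0, le_rfl⟩)
  set K : ℝ := 2 * n * M * ((n:ℝ) + 1) ^ (σ + 1) with hK
  have hK0 : 0 < K := by positivity
  set τ : ℝ := δ * ‖mu n‖ / (4 * K * n) with hτ
  have hτ0 : 0 < τ := by positivity
  have hτp : 0 < τ ^ (1 - p) := Real.rpow_pos_of_pos hτ0 _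
  obtain ⟨T, c, h1, h2⟩ := ha (δ * ‖mu n‖ / (4 * K * τ ^ (1 - p))) (by positivity)
  have hT : ∀ θ ∈ T, 0 < θ ∧ θ ≤ 1 := fun θ hθ => hA θ (h1 θ hθ)
  obtain ⟨h3, h4⟩ := nrm_lt (err_meas lam T c) h2
  have h5 := local_bound h hT c hn0 hδ0 hδ1 (fun θ hθ => hgap θ (h1 θ hθ))
  have h6 := err_loc hp hσ hT c n hτ0 h3
  have h7 : δ * ‖mu n‖ ≤ K * (τ * n + τ ^ (1 - p) * ∫ y in Ioi (1:ℝ), ‖err lam T c y‖ ^ p * y ^ (-(p * σ) - 1)) := by
    refine h5.trans ?_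
    rw [← hM, hK, mul_assoc (2 * (n:ℝ) * M)]
    exact mul_le_mul_of_nonneg_left h6 (by positivity)
  have h8 : K * (τ * n) = δ * ‖mu n‖ / 4 := by
    rw [hτ]; field_simp
  have h9 : K * (τ ^ (1 - p) * ∫ y in Ioi (1:ℝ), ‖err lam T c y‖ ^ p * y ^ (-(p * σ) - 1)) < δ * ‖mu n‖ / 4 := by
    rw [lt_div_iff₀ (by positivity)] at h4
    rw [lt_div_iff₀ (by norm_num)]
    linarith
  have h10 : 0 < δ * ‖mu n‖ := by positivity
  rw [mul_add, h8] at h7
  linarith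

end

end Pool.Agent.Helper39.ND
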