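import Pool.Agent.Helper39.ND.Loc

/-!
The Mellin transform of a good approximation continues `1 / L` to a half plane.
-/

set_option autoImplicit false

open MeasureTheory Filter Topology Set
open scoped ENNReal

namespace Pool.Agent.Helper39.ND

noncomputable section

/-- the weight is summable -/
def Sum2 (f : ℕ → ℂ) : Prop := Summable (fun n : ℕ => ‖f n‖ * (n : ℝ) ^ (-2 : ℝ))

/-- `∑ c θ θ^s` -/
def AT (T : Finset ℝ) (c : ℝ → ℂ) (s : ℂ) : ℂ := ∑ θ ∈ T, c θ * (θ : ℂ) ^ s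

/-- the Mellin transform of the error -/
def IT (lam : ℕ → ℂ) (T : Finset ℝ) (c : ℝ → ℂ) (s : ℂ) : ℂ :=
  ∫ y in Ioi (1:ℝ), err lam T c y * (y : ℂ) ^ (-(s + 1))

/-- `1 - s * IT` -/
def GT (lam : ℕ → ℂ) (T : Finset ℝ) (c : ℝ → ℂ) (s : ℂ) : ℂ := 1 - s * IT lam T c s

lemma S_growth {lam : ℕ → ℂ} (h : Sum2 lam) : ∃ C : ℝ, 0 ≤ C ∧ ∀ z : ℝ, 0 ≤ z → ‖S lam z‖ ≤ C * z ^ (2:ℝ) := by
  refine ⟨∑' n : ℕ, ‖lam n‖ * (n : ℝ) ^ (-2 : ℝ), tsum_nonneg fun n => by positivity, fun z hz => ?_⟩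
  unfold S
  have h1 : ∀ k ∈ Finset.Icc 1 ⌊z⌋₊, ‖lam k‖ ≤ (‖lam k‖ * (k : ℝ) ^ (-2 : ℝ)) * z ^ (2:ℝ) := by
    intro k hk
    rw [Finset.mem_Icc] at hk
    have hk0 : (0:ℝ) < k := by exact_mod_cast hk.1
    have hkz : (k:ℝ) ≤ z := (Nat.le_floor_iff hz).mp hk.2
    have h2 : (1:ℝ) ≤ (k : ℝ) ^ (-2 : ℝ) * z ^ (2:ℝ) := by
      rw [Real.rpow_neg hk0.le, ← div_eq_inv_mul, one_le_div (by positivity)]
      exact Real.rpow_le_rpow hk0.le hkz (by norm_num)
    calc ‖lam k‖ = ‖lam k‖ * 1 := (mul_one _).symm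
      _ ≤ ‖lam k‖ * ((k : ℝ) ^ (-2 : ℝ) * z ^ (2:ℝ)) := mul_le_mul_of_nonneg_left h2 (norm_nonneg _)
      _ = _ := by ring
  refine (norm_sum_le _ _).trans ((Finset.sum_le_sum h1).trans ?_)
  rw [← Finset.sum_mul]
  refine mul_le_mul_of_nonneg_right ?_ (by positivity)
  exact h.sum_le_tsum _ fun n _ => by positivity

lemma lsummable {lam : ℕ → ℂ} (h : Sum2 lam) {s : ℂ} (hs : 2 ≤ s.re) : LSeriesSummable lam s := by
  refine Summable.of_norm_bounded h fun n => ?_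
  rw [LSeries.norm_term_eq]
  split_ifs with hn
  · positivity
  · have hn0 : (1:ℝ) ≤ n := by exact_mod_cast Nat.one_le_iff_ne_zero.mpr hn
    rw [div_eq_mul_inv, ← Real.rpow_neg (by linarith)]
    refine mul_le_mul_of_nonneg_left ?_ (norm_nonneg _)
    exact Real.rpow_le_rpow_of_exponent_le hn0 (by linarith)

lemma mellin_S {lam : ℕ → ℂ} (h : Sum2 lam) {s : ℂ} (hs : 2 < s.re) :
    ∫ t in Ioi (1 : ℝ), S lam t * (t : ℂ) ^ (-(s + 1)) = LSeries lam s / s := by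
  have hs0 : s ≠ 0 := by rintro rfl; simp at hs; linarith
  obtain ⟨C, hC0, hC⟩ := S_growth h
  have h1 := LSeries_eq_mul_integral lam (r := 2) (by norm_num) hs (lsummable h hs.le) (by
    refine Asymptotics.IsBigO.of_bound C (Eventually.of_forall fun n => ?_)
    have h2 := hC n (Nat.cast_nonneg n)
    unfold S at h2
    rw [Nat.floor_natCast] at h2
    rw [Real.norm_of_nonneg (by positivity)]
    exact h2)
  rw [h1, mul_div_cancel_left₀ _ hs0]
  rfl

lemma pair_int {lam : ℕ → ℂ} (h : Sum2 lam) {s : ℂ} (hs : 2 < s.re) {θ : ℝ} (h0 : 0 < θ) :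
    IntegrableOn (fun y : ℝ => S lam (θ * y) * (y : ℂ) ^ (-(s + 1))) (Ioi 1) := by
  obtain ⟨C, hC0, hC⟩ := S_growth h
  have h2 : IntegrableOn (fun t : ℝ => C * θ ^ (2:ℝ) * t ^ (1 - s.re)) (Ioi (1:ℝ)) :=
    (integrableOn_Ioi_rpow_of_lt (by linarith) one_pos).const_mul _
  refine h2.mono' ?_ ?_
  · refine AEStronglyMeasurable.mul ?_ ?_
    · exact ((S_meas lam).comp (measurable_const_mul θ)).aestronglyMeasurable
    · refine ContinuousOn.aestronglyMeasurable (fun t ht => ?_) measurableSet_Ioi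
      have ht0 : 0 < t := lt_trans one_pos ht
      exact (Complex.continuousAt_ofReal_cpow_const t _ (Or.inr ht0.ne')).continuousWithinAt
  · refine (ae_restrict_iff' measurableSet_Ioi).mpr (Eventually.of_forall fun t ht => ?_)
    have ht0 : 0 < t := lt_trans one_pos ht
    rw [norm_mul, Complex.norm_cpow_eq_rpow_re_of_pos ht0]
    have : (-(s + 1)).re = -(s.re + 1) := by simp
    rw [this]
    have h2 := hC (θ * t) (by positivity)
    rw [Real.mul_rpow h0.le ht0.le] at h2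
    calc ‖S lam (θ * t)‖ * t ^ (-(s.re + 1)) ≤ C * (θ ^ (2:ℝ) * t ^ (2:ℝ)) * t ^ (-(s.re + 1)) := by gcongr
      _ = C * θ ^ (2:ℝ) * (t ^ (2:ℝ) * t ^ (-(s.re + 1))) := by ring
      _ = _ := by rw [← Real.rpow_add ht0]; congr 2; ring

lemma pair_val {lam : ℕ → ℂ} (h : Sum2 lam) {s : ℂ} (hs : 2 < s.re) {θ : ℝ} (h0 : 0 < θ) (hθ : θ ≤ 1) :
    ∫ y in Ioi (1:ℝ), S lam (θ * y) * (y : ℂ) ^ (-(s + 1)) = (θ : ℂ) ^ s * LSeries lam s / s := by
  have hθc : (θ : ℂ) ≠ 0 := by exact_mod_cast h0.ne'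
  have h2 := integral_comp_mul_left_Ioi (fun u : ℝ => S lam u * (u : ℂ) ^ (-(s + 1))) 1 h0
  rw [mul_one] at h2
  have h3 : ∫ y in Ioi (1:ℝ), S lam (θ * y) * (((θ * y : ℝ)) : ℂ) ^ (-(s + 1)) =
      (θ : ℂ) ^ (-(s + 1)) * ∫ y in Ioi (1:ℝ), S lam (θ * y) * (y : ℂ) ^ (-(s + 1)) := by
    rw [← integral_const_mul]
    refine setIntegral_congr_fun measurableSet_Ioi fun y hy => ?_
    have hy0 : 0 < y := lt_trans (by positivity) hy
    rw [Complex.ofReal_mul, Complex.mul_cpow_ofReal_nonneg h0.le hy0.le]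
    ring
  rw [h3] at h2
  have h4 : ∫ u in Ioi θ, S lam u * (u : ℂ) ^ (-(s + 1)) = ∫ u in Ioi (1:ℝ), S lam u * (u : ℂ) ^ (-(s + 1)) := by
    refine setIntegral_eq_of_subset_of_ae_sdiff_eq_zero measurableSet_Ioi.nullMeasurableSet
      (Ioi_subset_Ioi hθ) ?_
    have hne : ∀ᵐ y : ℝ, y ≠ 1 := by simp [ae_iff, measure_singleton]
    filter_upwards [hne] with y hy hy2
    have hy3 : y ≤ 1 := not_lt.mp hy2.2
    rw [S_zero lam (lt_of_le_of_ne hy3 hy), zero_mul]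
  rw [h4, mellin_S h hs] at h2
  have h6 : (θ : ℂ) ^ (-(s + 1)) ≠ 0 := by
    rw [Ne, Complex.cpow_eq_zero_iff]; simp [hθc]
  have h5 : (θ : ℂ) ^ s * (θ : ℂ) ^ (-(s + 1)) = (θ : ℂ)⁻¹ := by
    rw [← Complex.cpow_add _ _ hθc, show s + -(s + 1) = -1 by ring, Complex.cpow_neg_one]
  refine mul_left_cancel₀ h6 ?_
  rw [h2, Complex.real_smul, Complex.ofReal_inv]
  linear_combination (-(LSeries lam s / s)) * h5

lemma IT_val {lam : ℕ → ℂ} (h : Sum2 lam) {T : Finset ℝ} (hT : ∀ θ ∈ T, 0 < θ ∧ θ ≤ 1) (c : ℝ → ℂ) {s : ℂ}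
    (hs : 2 < s.re) : GT lam T c s = LSeries lam s * AT T c s := by
  have hs0 : s ≠ 0 := by rintro rfl; simp at hs; linarith
  have hi1 : IntegrableOn (fun y : ℝ => (y : ℂ) ^ (-(s + 1))) (Ioi 1) := by
    refine (integrableOn_Ioi_cpow_of_lt ?_ one_pos)
    simp; linarith
  have e1 : ∀ y : ℝ, err lam T c y * (y : ℂ) ^ (-(s + 1)) =
      (y : ℂ) ^ (-(s + 1)) - ∑ θ ∈ T, c θ * (S lam (θ * y) * (y : ℂ) ^ (-(s + 1))) := by
    intro y
    unfold err
    rw [sub_mul, one_mul, Finset.sum_mul]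
    congr 1
    refine Finset.sum_congr rfl fun θ _ => ?_
    ring
  have e2 : IT lam T c s = 1 / s - ∑ θ ∈ T, c θ * ((θ : ℂ) ^ s * LSeries lam s / s) := by
    unfold IT
    simp_rw [e1]
    rw [integral_sub hi1 (integrable_finsetSum _ fun θ hθ => ((pair_int h hs (hT θ hθ).1).const_mul _)),
      integral_finsetSum _ fun θ hθ => ((pair_int h hs (hT θ hθ).1).const_mul _)]
    congr 1
    · rw [integral_Ioi_cpow_of_lt (by simp; linarith) one_pos]
      simp only [Complex.ofReal_one, Complex.one_cpow]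
      have : -(s + 1) + 1 = -s := by ring
      rw [this]
      field_simp
    · refine Finset.sum_congr rfl fun θ hθ => ?_
      rw [integral_const_mul, pair_val h hs (hT θ hθ).1 (hT θ hθ).2]
  have e3 : ∑ θ ∈ T, c θ * ((θ : ℂ) ^ s * LSeries lam s / s) = LSeries lam s * AT T c s / s := by
    unfold AT
    rw [mul_div_assoc, Finset.sum_div, Finset.mul_sum]
    refine Finset.sum_congr rfl fun θ _ => ?_
    ring
  unfold GT
  rw [e2, e3]
  field_simp
  ring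

lemma E_int {lam : ℕ → ℂ} {T : Finset ℝ} {c : ℝ → ℂ} {p σ b : ℝ} (hp : 1 ≤ p) (hb : σ < b)
    (hI : IntegrableOn (fun y : ℝ => ‖err lam T c y‖ ^ p * y ^ (-(p * σ) - 1)) (Ioi 1)) :
    IntegrableOn (fun y : ℝ => ‖err lam T c y‖ * y ^ (-(b + 1))) (Ioi 1) := by
  have h1 : IntegrableOn (fun y : ℝ => 1 * y ^ (σ - b - 1) + 1 ^ (1 - p) * (‖err lam T c y‖ ^ p * y ^ (-(p * σ) - 1))) (Ioi 1) :=
    ((integrableOn_Ioi_rpow_of_lt (by linarith) one_pos).const_mul _).add (hI.const_mul _)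
  refine h1.mono' ?_ ?_
  · exact ((err_meas lam T c).norm.mul (measurable_id.pow_const _)).aestronglyMeasurable
  · refine (ae_restrict_iff' measurableSet_Ioi).mpr (Eventually.of_forall fun y hy => ?_)
    have hy0 : (0:ℝ) < y := lt_trans one_pos hy
    rw [Real.norm_of_nonneg (by positivity)]
    exact young (norm_nonneg _) (le_of_lt hy) one_pos hp hb.le

lemma E_meas (lam : ℕ → ℂ) (T : Finset ℝ) (c : ℝ → ℂ) (s : ℂ) :
    AEStronglyMeasurable (fun y : ℝ => err lam T c y * (y : ℂ) ^ s) (volume.restrict (Ioi 1)) := by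
  refine AEStronglyMeasurable.mul (err_meas lam T c).aestronglyMeasurable ?_
  refine ContinuousOn.aestronglyMeasurable (fun t ht => ?_) measurableSet_Ioi
  have ht0 : 0 < t := lt_trans one_pos ht
  exact (Complex.continuousAt_ofReal_cpow_const t _ (Or.inr ht0.ne')).continuousWithinAt

lemma E_int' {lam : ℕ → ℂ} {T : Finset ℝ} {c : ℝ → ℂ} {p σ : ℝ} (hp : 1 ≤ p) {s : ℂ} (hs : σ < s.re)
    (hI : IntegrableOn (fun y : ℝ => ‖err lam T c y‖ ^ p * y ^ (-(p * σ) - 1)) (Ioi 1)) :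
    IntegrableOn (fun y : ℝ => err lam T c y * (y : ℂ) ^ (-(s + 1))) (Ioi 1) := by
  refine (E_int hp hs hI).mono' (E_meas lam T c _) ?_
  refine (ae_restrict_iff' measurableSet_Ioi).mpr (Eventually.of_forall fun y hy => ?_)
  have hy0 : (0:ℝ) < y := lt_trans one_pos hy
  rw [norm_mul, Complex.norm_cpow_eq_rpow_re_of_pos hy0]
  simp

lemma IT_diff {lam : ℕ → ℂ} {T : Finset ℝ} {c : ℝ → ℂ} {p σ : ℝ} (hp : 1 ≤ p)
    (hI : IntegrableOn (fun y : ℝ => ‖err lam T c y‖ ^ p * y ^ (-(p * σ) - 1)) (Ioi 1)) {s₀ : ℂ} (hs : σ < s₀.re) :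
    DifferentiableAt ℂ (IT lam T c) s₀ := by
  set d : ℝ := (s₀.re - σ) / 3 with hd
  have hd0 : 0 < d := by rw [hd]; linarith
  have hmain := hasDerivAt_integral_of_dominated_loc_of_deriv_le
    (F := fun (s : ℂ) (y : ℝ) => err lam T c y * (y : ℂ) ^ (-(s + 1)))
    (F' := fun (s : ℂ) (y : ℝ) => err lam T c y * (-(Real.log y : ℂ) * (y : ℂ) ^ (-(s + 1))))
    (μ := volume.restrict (Ioi (1:ℝ))) (x₀ := s₀) (s := Metric.ball s₀ d)
    (bound := fun y => 1 / d * (‖err lam T c y‖ * y ^ (-((s₀.re - 2 * d) + 1))))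
    (Metric.ball_mem_nhds s₀ hd0) (Eventually.of_forall fun s => E_meas lam T c _) (E_int' hp hs hI) ?_ ?_ ?_ ?_
  · exact hmain.2.differentiableAt
  · have h1 : (fun y : ℝ => err lam T c y * (-(Real.log y : ℂ) * (y : ℂ) ^ (-(s₀ + 1)))) =
        fun y : ℝ => (-(Real.log y : ℂ)) * (err lam T c y * (y : ℂ) ^ (-(s₀ + 1))) := by
      funext y; ring
    rw [h1]
    refine AEStronglyMeasurable.mul ?_ (E_meas lam T c _)
    exact (Complex.measurable_ofReal.comp Real.measurable_log).neg.aestronglyMeasurable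
  · refine (ae_restrict_iff' measurableSet_Ioi).mpr (Eventually.of_forall fun y hy s hsb => ?_)
    have hy1 : (1:ℝ) < y := hy
    have hy0 : (0:ℝ) < y := lt_trans one_pos hy1
    have hre : s₀.re - d ≤ s.re := by
      have h1 : |(s - s₀).re| < d := lt_of_le_of_lt (Complex.abs_re_le_norm _) (by
        rw [← dist_eq_norm]; exact Metric.mem_ball.mp hsb)
      rw [Complex.sub_re] at h1
      have := (abs_lt.mp h1).1
      linarith
    rw [norm_mul, norm_mul, norm_neg, Complex.norm_real, Real.norm_of_nonneg (Real.log_nonneg hy1.le),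
      Complex.norm_cpow_eq_rpow_re_of_pos hy0]
    have e1 : (-(s + 1)).re = -(s.re + 1) := by simp
    rw [e1]
    have h2 : Real.log y ≤ y ^ d / d := Real.log_le_rpow_div hy0.le hd0
    have h3 : y ^ (-(s.re + 1)) ≤ y ^ (-(s₀.re - d + 1)) :=
      Real.rpow_le_rpow_of_exponent_le hy1.le (by linarith)
    calc ‖err lam T c y‖ * (Real.log y * y ^ (-(s.re + 1)))
        ≤ ‖err lam T c y‖ * (y ^ d / d * y ^ (-(s₀.re - d + 1))) := by
          refine mul_le_mul_of_nonneg_left (mul_le_mul h2 h3 (by positivity) (by positivity)) (norm_nonneg _)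
      _ = 1 / d * (‖err lam T c y‖ * (y ^ d * y ^ (-(s₀.re - d + 1)))) := by ring
      _ = _ := by
          rw [← Real.rpow_add hy0]; congr 3; ring
  · exact (E_int hp (by linarith) hI).const_mul _
  · refine (ae_restrict_iff' measurableSet_Ioi).mpr (Eventually.of_forall fun y hy s _ => ?_)
    have hy0 : (0:ℝ) < y := lt_trans one_pos hy
    have hyc : (y : ℂ) ≠ 0 := by exact_mod_cast hy0.ne'
    have h1 : HasDerivAt (fun s : ℂ => -(s + 1)) (-1) s := ((hasDerivAt_id s).add_const (1:ℂ)).neg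
    have h2 := (h1.const_cpow (c := (y : ℂ)) (Or.inl hyc)).const_mul (err lam T c y)
    have h3 : err lam T c y * (-(Real.log y : ℂ) * (y : ℂ) ^ (-(s + 1))) =
        err lam T c y * ((y : ℂ) ^ (-(s + 1)) * Complex.log y * -1) := by
      rw [Complex.ofReal_log hy0.le]
      ring
    show HasDerivAt (fun s : ℂ => err lam T c y * (y : ℂ) ^ (-(s + 1)))
      (err lam T c y * (-(Real.log y : ℂ) * (y : ℂ) ^ (-(s + 1)))) s
    rw [h3]
    exact h2

lemma IT_le {lam : ℕ → ℂ} {T : Finset ℝ} {c : ℝ → ℂ} {p σ : ℝ} (hp : 1 ≤ p)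
    (hI : IntegrableOn (fun y : ℝ => ‖err lam T c y‖ ^ p * y ^ (-(p * σ) - 1)) (Ioi 1)) {s : ℂ} (hs : σ < s.re)
    {τ : ℝ} (hτ : 0 < τ) :
    ‖IT lam T c s‖ ≤ τ / (s.re - σ) + τ ^ (1 - p) * ∫ y in Ioi (1:ℝ), ‖err lam T c y‖ ^ p * y ^ (-(p * σ) - 1) := by
  have hi3 : IntegrableOn (fun y : ℝ => τ * y ^ (σ - s.re - 1)) (Ioi 1) :=
    (integrableOn_Ioi_rpow_of_lt (by linarith) one_pos).const_mul _
  have hB : ‖IT lam T c s‖ ≤
      ∫ y in Ioi (1:ℝ), (τ * y ^ (σ - s.re - 1) + τ ^ (1 - p) * (‖err lam T c y‖ ^ p * y ^ (-(p * σ) - 1))) := by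
    refine norm_integral_le_of_norm_le (hi3.add (hI.const_mul _)) ?_
    refine (ae_restrict_iff' measurableSet_Ioi).mpr (Eventually.of_forall fun y hy => ?_)
    have hy0 : 0 < y := lt_trans one_pos hy
    rw [norm_mul, Complex.norm_cpow_eq_rpow_re_of_pos hy0]
    have e1 : (-(s + 1)).re = -(s.re + 1) := by simp
    rw [e1]
    exact young (norm_nonneg _) (le_of_lt hy) hτ hp hs.le
  rw [integral_add hi3 (hI.const_mul _), integral_const_mul, integral_const_mul,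
    integral_Ioi_rpow_of_lt (by linarith) one_pos, Real.one_rpow] at hB
  refine hB.trans (add_le_add (le_of_eq ?_) le_rfl)
  have : s.re - σ ≠ 0 := by linarith
  have h2 : σ - s.re ≠ 0 := by linarith
  rw [show σ - s.re - 1 + 1 = σ - s.re by ring]
  field_simp
  ring

lemma AT_diff {T : Finset ℝ} (hT : ∀ θ ∈ T, 0 < θ ∧ θ ≤ 1) (c : ℝ → ℂ) : Differentiable ℂ (AT T c) := by
  unfold AT
  refine Differentiable.fun_sum fun θ hθ => ?_
  have hθc : (θ : ℂ) ≠ 0 := by exact_mod_cast (hT θ hθ).1.ne'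
  exact (differentiable_id.const_cpow (Or.inl hθc)).const_mul _

lemma GT_diff {lam : ℕ → ℂ} {T : Finset ℝ} {c : ℝ → ℂ} {p σ : ℝ} (hp : 1 ≤ p)
    (hI : IntegrableOn (fun y : ℝ => ‖err lam T c y‖ ^ p * y ^ (-(p * σ) - 1)) (Ioi 1)) {s : ℂ} (hs : σ < s.re) :
    DifferentiableAt ℂ (GT lam T c) s := by
  unfold GT
  exact (differentiableAt_const _).sub (differentiableAt_id.mul (IT_diff hp hI hs))

/-- two approximations -/
lemma cross {lam : ℕ → ℂ} (h : Sum2 lam) {p σ : ℝ} (hp : 1 ≤ p) {T T' : Finset ℝ} (hT : ∀ θ ∈ T, 0 < θ ∧ θ ≤ 1)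
    (hT' : ∀ θ ∈ T', 0 < θ ∧ θ ≤ 1) {c c' : ℝ → ℂ}
    (hI : IntegrableOn (fun y : ℝ => ‖err lam T c y‖ ^ p * y ^ (-(p * σ) - 1)) (Ioi 1))
    (hI' : IntegrableOn (fun y : ℝ => ‖err lam T' c' y‖ ^ p * y ^ (-(p * σ) - 1)) (Ioi 1)) {s : ℂ} (hs : σ < s.re) :
    AT T c s * GT lam T' c' s = AT T' c' s * GT lam T c s := by
  have hUo : IsOpen {s : ℂ | σ < s.re} := isOpen_lt continuous_const Complex.continuous_re
  have h1 : AnalyticOnNhd ℂ (fun s => AT T c s * GT lam T' c' s) {s : ℂ | σ < s.re} := by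
    refine DifferentiableOn.analyticOnNhd (fun z hz => ?_) hUo
    exact ((AT_diff hT c z).mul (GT_diff hp hI' hz)).differentiableWithinAt
  have h2 : AnalyticOnNhd ℂ (fun s => AT T' c' s * GT lam T c s) {s : ℂ | σ < s.re} := by
    refine DifferentiableOn.analyticOnNhd (fun z hz => ?_) hUo
    exact ((AT_diff hT' c' z).mul (GT_diff hp hI hz)).differentiableWithinAt
  have hpre : IsPreconnected {s : ℂ | σ < s.re} := (convex_halfSpace_re_gt σ).isPreconnected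
  set a : ℝ := max σ 2 + 1 with ha
  have ha1 : σ < a := by rw [ha]; linarith [le_max_left σ 2]
  have ha2 : 2 < a := by rw [ha]; linarith [le_max_right σ 2]
  have h3 := h1.eqOn_of_preconnected_of_eventuallyEq h2 hpre (z₀ := (a : ℂ)) (by
      show σ < (a : ℂ).re
      simpa using ha1) (by
      have h4 : {s : ℂ | 2 < s.re} ∈ 𝓝 (a : ℂ) :=
        (isOpen_lt continuous_const Complex.continuous_re).mem_nhds (by
          show (2 : ℝ) < (a : ℂ).re
          simpa using ha2)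
      filter_upwards [h4] with z hz
      rw [IT_val h hT' c' hz, IT_val h hT c hz]
      ring)
  exact h3 hs

/-- **the reciprocal continues** -/
theorem recip_of_approx {lam : ℕ → ℂ} (h : Sum2 lam) {p σ : ℝ} (hp : 1 ≤ p) {A : Set ℝ}
    (hA : ∀ θ ∈ A, 0 < θ ∧ θ ≤ 1) (ha : Approx lam p σ A) :
    ∃ H : ℂ → ℂ, DifferentiableOn ℂ H {s : ℂ | σ < s.re} ∧
      ∀ s : ℂ, σ < s.re → 2 < s.re → H s * LSeries lam s = 1 := by
  -- good approximations at every point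
  have hgood : ∀ s : ℂ, ∃ (T : Finset ℝ) (c : ℝ → ℂ), (∀ θ ∈ T, 0 < θ ∧ θ ≤ 1) ∧
      IntegrableOn (fun y : ℝ => ‖err lam T c y‖ ^ p * y ^ (-(p * σ) - 1)) (Ioi 1) ∧
      (σ < s.re → GT lam T c s ≠ 0) := by
    intro s
    by_cases hs : σ < s.re
    · set κ : ℝ := 1 / (1 + ‖s‖) with hκ
      have hκ0 : 0 < κ := by positivity
      have hd : 0 < s.re - σ := by linarith
      set τ : ℝ := κ * (s.re - σ) / 4 with hτ
      have hτ0 : 0 < τ := by positivity
      have hτp : 0 < τ ^ (1 - p) := Real.rpow_pos_of_pos hτ0 _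
      obtain ⟨T, c, h1, h2⟩ := ha (κ / 4 / τ ^ (1 - p)) (by positivity)
      obtain ⟨h3, h4⟩ := nrm_lt (err_meas lam T c) h2
      refine ⟨T, c, fun θ hθ => hA θ (h1 θ hθ), h3, fun _ hz => ?_⟩
      have h5 := IT_le hp h3 hs hτ0
      have h6 : τ / (s.re - σ) = κ / 4 := by rw [hτ]; field_simp
      have h7 : τ ^ (1 - p) * ∫ y in Ioi (1:ℝ), ‖err lam T c y‖ ^ p * y ^ (-(p * σ) - 1) < κ / 4 := by
        rw [lt_div_iff₀ hτp] at h4
        linarith
      have h8 : ‖IT lam T c s‖ < κ := by rw [h6] at h5; linarith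
      unfold GT at hz
      have h9 : s * IT lam T c s = 1 := (sub_eq_zero.mp hz).symm
      have h10 : ‖s * IT lam T c s‖ = 1 := by rw [h9, norm_one]
      rw [norm_mul] at h10
      have h11 : ‖s‖ * ‖IT lam T c s‖ ≤ ‖s‖ * κ := mul_le_mul_of_nonneg_left h8.le (norm_nonneg _)
      have h12 : ‖s‖ * κ < 1 := by
        rw [hκ, mul_one_div, div_lt_one (by positivity)]; linarith
      linarith
    · obtain ⟨T, c, h1, h2⟩ := ha 1 one_pos
      obtain ⟨h3, h4⟩ := nrm_lt (err_meas lam T c) h2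
      exact ⟨T, c, fun θ hθ => hA θ (h1 θ hθ), h3, fun h => absurd h hs⟩
  choose T c hT hI hG using hgood
  refine ⟨fun s => AT (T s) (c s) s / GT lam (T s) (c s) s, ?_, ?_⟩
  · intro s₀ hs₀
    refine DifferentiableAt.differentiableWithinAt ?_
    have hs₀' : σ < s₀.re := hs₀
    have hd := (AT_diff (hT s₀) (c s₀) s₀).div (GT_diff hp (hI s₀) hs₀') (hG s₀ hs₀')
    refine hd.congr_of_eventuallyEq ?_
    have h1 : ∀ᶠ s in 𝓝 s₀, σ < s.re :=
      (isOpen_lt continuous_const Complex.continuous_re).mem_nhds hs₀'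
    have h2 : ∀ᶠ s in 𝓝 s₀, GT lam (T s₀) (c s₀) s ≠ 0 :=
      (GT_diff hp (hI s₀) hs₀').continuousAt.eventually_ne (hG s₀ hs₀')
    filter_upwards [h1, h2] with s hs1 hs2
    rw [Pi.div_apply, div_eq_div_iff (hG s hs1) hs2]
    exact cross h hp (hT s) (hT s₀) (hI s) (hI s₀) hs1
  · intro s hs hs2
    have h1 := hG s hs
    have h2 := IT_val h (hT s) (c s) hs2
    show AT (T s) (c s) s / GT lam (T s) (c s) s * LSeries lam s = 1
    rw [div_mul_eq_mul_div, div_eq_one_iff_eq h1, h2]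
    ring

/-- no zeros of a continuation -/
theorem zero_free_of_approx {lam : ℕ → ℂ} (h : Sum2 lam) {p σ : ℝ} (hp : 1 ≤ p) {A : Set ℝ}
    (hA : ∀ θ ∈ A, 0 < θ ∧ θ ≤ 1) (ha : Approx lam p σ A) {L : ℂ → ℂ} (hL : Differentiable ℂ L)
    (hs : ∀ s : ℂ, 2 < s.re → L s = LSeries lam s) {s : ℂ} (hσ : σ < s.re) : L s ≠ 0 := by
  obtain ⟨H, h1, h2⟩ := recip_of_approx h hp hA ha
  have hUo : IsOpen {s : ℂ | σ < s.re} := isOpen_lt continuous_const Complex.continuous_re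
  have h3 : AnalyticOnNhd ℂ (fun s => H s * L s) {s : ℂ | σ < s.re} :=
    (h1.mul hL.differentiableOn).analyticOnNhd hUo
  have h4 : AnalyticOnNhd ℂ (fun _ : ℂ => (1:ℂ)) {s : ℂ | σ < s.re} := analyticOnNhd_const
  have hpre : IsPreconnected {s : ℂ | σ < s.re} := (convex_halfSpace_re_gt σ).isPreconnected
  set a : ℝ := max σ 2 + 1 with ha'
  have ha1 : σ < a := by rw [ha']; linarith [le_max_left σ 2]
  have ha2 : 2 < a := by rw [ha']; linarith [le_max_right σ 2]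
  have h5 := h3.eqOn_of_preconnected_of_eventuallyEq h4 hpre (z₀ := (a : ℂ)) (by
      show σ < (a : ℂ).re
      simpa using ha1) (by
      have h4 : {s : ℂ | 2 < s.re} ∈ 𝓝 (a : ℂ) :=
        (isOpen_lt continuous_const Complex.continuous_re).mem_nhds (by
          show (2 : ℝ) < (a : ℂ).re
          simpa using ha2)
      have h5 : {s : ℂ | σ < s.re} ∈ 𝓝 (a : ℂ) := hUo.mem_nhds (by
          show σ < (a : ℂ).re
          simpa using ha1)
      filter_upwards [h4, h5] with z hz hz'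
      rw [hs z hz]
      exact h2 z hz' hz)
  intro hz
  have h6 : H s * L s = 1 := h5 hσ
  rw [hz, mul_zero] at h6
  exact zero_ne_one h6

end

end Pool.Agent.Helper39.ND
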