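import Pool.Agent.Helper39.ND.Eul
import Pool.Agent.Helper39.ND.Lib

/-!
Euler systems: the reciprocal roots, and the L-function as an object of the class `LFn`.
-/

set_option autoImplicit false

open Filter Topology Set Polynomial
open scoped ArithmeticFunction ArithmeticFunction.Moebius ArithmeticFunction.zeta

namespace Pool.Agent.Helper39.ND

open Pool.Agent.Q286.GB

noncomputable section

/-- reciprocal roots -/
lemma roots_of {r : ℝ} (hr : 0 < r) : ∀ (b : ℕ) (Q : ℂ[X]), Q.coeff 0 = 1 → Q.natDegree ≤ b →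
    (∀ z : ℂ, Q.eval z = 0 → r ≤ ‖z‖) →
    ∃ β : Fin b → ℂ, (∀ j, ‖β j‖ ≤ r⁻¹) ∧ Q = ∏ j, (1 - C (β j) * X) := by
  intro b
  induction b with
  | zero =>
    intro Q h0 hd _
    refine ⟨fun _ => 0, fun j => j.elim0, ?_⟩
    rw [Finset.univ_eq_empty, Finset.prod_empty]
    rw [Polynomial.eq_C_of_natDegree_le_zero hd, h0, C_1]
  | succ b ih =>
    intro Q h0 hd hz
    by_cases hdeg : Q.natDegree = 0
    · refine ⟨fun _ => 0, fun j => by rw [norm_zero]; positivity, ?_⟩
      rw [Polynomial.eq_C_of_natDegree_le_zero hdeg.le, h0]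
      simp
    · obtain ⟨z, hzr⟩ := Complex.exists_root (f := Q) (by
        rw [Polynomial.degree_eq_natDegree (fun h => by simp [h] at h0)]
        exact_mod_cast Nat.pos_of_ne_zero hdeg)
      have hz0 : z ≠ 0 := by
        rintro rfl
        have h1 : Q.eval 0 = 0 := hzr
        rw [← Polynomial.coeff_zero_eq_eval_zero, h0] at h1
        exact one_ne_zero h1
      obtain ⟨Q', hQ'⟩ := Polynomial.dvd_iff_isRoot.mpr hzr
      have hQ0 : Q' ≠ 0 := by
        rintro rfl
        rw [mul_zero] at hQ'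
        rw [hQ'] at h0
        simp at h0
      have hzC : C z * C z⁻¹ = (1 : ℂ[X]) := by rw [← C_mul, mul_inv_cancel₀ hz0, C_1]
      have hfac : Q = (1 - C z⁻¹ * X) * (C (-z) * Q') := by
        rw [hQ', C_neg]
        linear_combination (-(X : ℂ[X]) * Q') * hzC
      have hdQ : Q.natDegree = 1 + Q'.natDegree := by
        rw [hQ', Polynomial.natDegree_mul (Polynomial.X_sub_C_ne_zero z) hQ0, Polynomial.natDegree_X_sub_C]
      obtain ⟨β, h1, h2⟩ := ih (C (-z) * Q') (by
          have h3 := congrArg (fun q : ℂ[X] => q.coeff 0) hfac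
          simp only [Polynomial.mul_coeff_zero, h0] at h3
          rw [Polynomial.mul_coeff_zero]
          simpa using h3.symm) (by
          have := Polynomial.natDegree_C_mul_le (-z) Q'
          omega) (fun w hw => by
          refine hz w ?_
          rw [hfac, Polynomial.eval_mul, hw, mul_zero])
      refine ⟨Fin.cons z⁻¹ β, ?_, ?_⟩
      · intro j
        refine Fin.cases ?_ (fun j => ?_) j
        · rw [Fin.cons_zero, norm_inv]
          exact inv_anti₀ hr (hz z hzr)
        · rw [Fin.cons_succ]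
          exact h1 j
      · rw [Fin.prod_univ_succ, Fin.cons_zero]
        simp only [Fin.cons_succ]
        rw [← h2]
        exact hfac

/-- an Euler system of rank at most `b` with the Weil bound of weight `2a` -/
def IsEul (b : ℕ) (a : ℝ) (P : ℕ → ℂ[X]) : Prop :=
  ∀ p : ℕ, p.Prime → (P p).coeff 0 = 1 ∧ (P p).natDegree ≤ b ∧
    ∀ z : ℂ, (P p).eval z = 0 → (p : ℝ) ^ (-a) ≤ ‖z‖

lemma exists_roots {b : ℕ} {a : ℝ} {P : ℕ → ℂ[X]} (h : IsEul b a P) :
    ∃ α : Fin b → ℕ → ℂ, IsRoots P α ∧ ∀ (j : Fin b) (p : ℕ), p.Prime → ‖α j p‖ ≤ (p : ℝ) ^ a := by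
  have h1 : ∀ p : ℕ, ∃ β : Fin b → ℂ, p.Prime → (∀ j, ‖β j‖ ≤ (p : ℝ) ^ a) ∧ P p = ∏ j, (1 - C (β j) * X) := by
    intro p
    by_cases hp : p.Prime
    · have hp0 : (0:ℝ) < p := by exact_mod_cast hp.pos
      obtain ⟨h2, h3, h4⟩ := h p hp
      obtain ⟨β, h5, h6⟩ := roots_of (Real.rpow_pos_of_pos hp0 (-a)) b (P p) h2 h3 h4
      refine ⟨β, fun _ => ⟨fun j => ?_, h6⟩⟩
      have := h5 j
      rwa [Real.rpow_neg hp0.le, inv_inv] at this
    · exact ⟨fun _ => 0, fun h => absurd h hp⟩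
  choose β hβ using h1
  exact ⟨fun j p => β p j, fun p hp => (hβ p hp).2, fun j p hp => (hβ p hp).1 j⟩

/-- the normalised coefficients -/
def nc (a : ℝ) (P : ℕ → ℂ[X]) (n : ℕ) : ℂ := coef P n * (((n : ℝ) ^ (-a) : ℝ) : ℂ)

/-- the normalised coefficients of the reciprocal -/
def ncInv (a : ℝ) (P : ℕ → ℂ[X]) (n : ℕ) : ℂ := coefInv P n * (((n : ℝ) ^ (-a) : ℝ) : ℂ)

lemma nc_inv {b : ℕ} {a : ℝ} {P : ℕ → ℂ[X]} (h : IsEul b a P) : Inv (nc a P) (ncInv a P) := by
  obtain ⟨α, h1, -⟩ := exists_roots h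
  intro n hn
  have h2 := congrArg (fun f : ArithmeticFunction ℂ => f n) (la_mul_ma α)
  simp only [ArithmeticFunction.mul_apply, ArithmeticFunction.one_apply] at h2
  have h3 : ∑ q ∈ n.divisorsAntidiagonal, nc a P q.1 * ncInv a P q.2 =
      (∑ q ∈ n.divisorsAntidiagonal, la α q.1 * ma α q.2) * (((n : ℝ) ^ (-a) : ℝ) : ℂ) := by
    rw [Finset.sum_mul]
    refine Finset.sum_congr rfl fun q hq => ?_
    have h4 := Nat.mem_divisorsAntidiagonal.mp hq
    have h5 : q.1 ≠ 0 := by
      intro h; rw [h, zero_mul] at h4; exact h4.2 h4.1.symm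
    have h6 : q.2 ≠ 0 := by
      intro h; rw [h, mul_zero] at h4; exact h4.2 h4.1.symm
    unfold nc ncInv
    rw [← la_eq h1 h5, ← ma_eq h1 h6, ← h4.1]
    push_cast
    rw [Real.mul_rpow (Nat.cast_nonneg _) (Nat.cast_nonneg _)]
    push_cast
    ring
  rw [h3, h2]
  split_ifs with h4
  · rw [h4]; simp
  · rw [zero_mul]

lemma norm_nc {f : ℕ → ℂ} {a : ℝ} {n : ℕ} (hn : n ≠ 0) :
    ‖f n * (((n : ℝ) ^ (-a) : ℝ) : ℂ)‖ * (n : ℝ) ^ (-2 : ℝ) = ‖LSeries.term f ((a + 2 : ℝ) : ℂ) n‖ := by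
  have hn0 : (0:ℝ) < n := by exact_mod_cast Nat.pos_of_ne_zero hn
  rw [LSeries.norm_term_eq, if_neg hn, Complex.ofReal_re, norm_mul, Complex.norm_real,
    Real.norm_of_nonneg (Real.rpow_nonneg hn0.le _), mul_assoc, ← Real.rpow_add hn0, div_eq_mul_inv,
    ← Real.rpow_neg hn0.le]
  congr 2
  ring

lemma term_congr' {f g : ℕ → ℂ} (h : ∀ n, n ≠ 0 → f n = g n) (s : ℂ) (n : ℕ) :
    LSeries.term f s n = LSeries.term g s n := by
  rw [LSeries.term_def, LSeries.term_def]
  split_ifs with h1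
  · rfl
  · rw [h n h1]

/-- summability of the coefficients -/
lemma nc_sum {b : ℕ} {a : ℝ} {P : ℕ → ℂ[X]} (h : IsEul b a P) :
    (Summable fun n : ℕ => if n = 0 then (0:ℝ) else ‖nc a P n‖ * (n : ℝ) ^ (-2 : ℝ)) ∧
    (Summable fun n : ℕ => if n = 0 then (0:ℝ) else ‖ncInv a P n‖ * (n : ℝ) ^ (-2 : ℝ)) := by
  obtain ⟨α, h1, hα⟩ := exists_roots h
  have h2 : LSeriesSummable (fun n => la α n) ((a + 2 : ℝ) : ℂ) :=
    (prod_summable Finset.univ (fun j => cm (α j)) fun j _ => cm_summable (hα j) (by rw [Complex.ofReal_re]; linarith)).1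
  have h3 : LSeriesSummable (fun n => ma α n) ((a + 2 : ℝ) : ℂ) :=
    (prod_summable Finset.univ (fun j => mc (α j)) fun j _ => mc_summable (hα j) (by rw [Complex.ofReal_re]; linarith)).1
  constructor
  · refine h2.norm.congr fun n => ?_
    split_ifs with hn
    · rw [hn]; simp
    · unfold nc
      rw [norm_nc (f := coef P) hn, term_congr' (f := coef P) (g := fun n => la α n) (fun n hn => (la_eq h1 hn).symm)]
  · refine h3.norm.congr fun n => ?_
    split_ifs with hn
    · rw [hn]; simp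
    · unfold ncInv
      rw [norm_nc (f := coefInv P) hn, term_congr' (f := coefInv P) (g := fun n => ma α n) (fun n hn => (ma_eq h1 hn).symm)]

lemma nc_Sum2 {b : ℕ} {a : ℝ} {P : ℕ → ℂ[X]} (h : IsEul b a P) : Sum2 (nc a P) := by
  refine (nc_sum h).1.congr_cofinite ?_
  rw [Filter.EventuallyEq, Filter.eventually_cofinite]
  refine (Set.finite_singleton 0).subset fun n hn => ?_
  by_contra hn0
  exact hn (if_neg hn0)

lemma ncInv_Sum2 {b : ℕ} {a : ℝ} {P : ℕ → ℂ[X]} (h : IsEul b a P) : Sum2 (ncInv a P) := by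
  refine (nc_sum h).2.congr_cofinite ?_
  rw [Filter.EventuallyEq, Filter.eventually_cofinite]
  refine (Set.finite_singleton 0).subset fun n hn => ?_
  by_contra hn0
  exact hn (if_neg hn0)

/-- the Euler product -/
def LF (P : ℕ → ℂ[X]) (s : ℂ) : ℂ := ∏' p : Nat.Primes, ((P p).eval (((p : ℕ) : ℂ) ^ (-s)))⁻¹

/-- the Euler product as a Dirichlet series with the normalised coefficients -/
lemma nc_series {b : ℕ} {a : ℝ} {P : ℕ → ℂ[X]} (h : IsEul b a P) {s : ℂ} (hs : 1 < s.re) :
    LSeriesSummable (nc a P) s ∧ LSeries (nc a P) s = LF P (s + a) ∧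
      Multipliable (fun p : Nat.Primes => ((P p).eval (((p : ℕ) : ℂ) ^ (-(s + a))))⁻¹) := by
  obtain ⟨α, h1, hα⟩ := exists_roots h
  have hre : a + 1 < (s + a).re := by
    rw [Complex.add_re, Complex.ofReal_re]; linarith
  have h2 : LSeriesSummable (fun n => la α n) (s + a) :=
    (prod_summable Finset.univ (fun j => cm (α j)) fun j _ => cm_summable (hα j) hre).1
  have h3 := la_hasProd h1 hα hre
  have h4 : ∀ n, LSeries.term (nc a P) s n = LSeries.term (fun n => la α n) (s + a) n := by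
    intro n
    rw [LSeries.term_def, LSeries.term_def]
    split_ifs with hn
    · rfl
    · have hn0 : (n : ℂ) ≠ 0 := by exact_mod_cast hn
      unfold nc
      rw [← la_eq h1 hn, Complex.cpow_add _ _ hn0, Complex.ofReal_cpow (Nat.cast_nonneg n)]
      push_cast
      rw [Complex.cpow_neg, ← div_eq_mul_inv, div_div, mul_comm ((n : ℂ) ^ s)]
  refine ⟨?_, ?_, h3.multipliable⟩
  · unfold LSeriesSummable at h2 ⊢
    exact h2.congr fun n => (h4 n).symm
  · unfold LF
    rw [h3.tprod_eq]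
    unfold LSeries
    exact tsum_congr h4

/-- The L-function as an object of the library. -/
theorem exists_LFn {b : ℕ} {a : ℝ} {P : ℕ → ℂ[X]} (h : IsEul b a P) {L : ℂ → ℂ} (hL : Differentiable ℂ L)
    (hs : ∀ s : ℂ, 1 + a < s.re → L s = LF P s)
    (hg : ∀ B : ℝ, ∃ C K : ℝ, ∀ s : ℂ, -B ≤ s.re → ‖L s‖ ≤ C * (1 + ‖s‖) ^ K) :
    ∃ O : LFn, (∀ s, O.L s = L (s + a)) ∧ (∀ n, n ≠ 0 → O.lam n = nc a P n) ∧
      (∀ n, n ≠ 0 → O.mu n = ncInv a P n) := by
  have hsum := nc_sum h
  refine ⟨{ L := fun s => L (s + a)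
            lam := fun n => if n = 0 then 0 else nc a P n
            mu := fun n => if n = 0 then 0 else ncInv a P n
            entire := hL.comp (differentiable_id.add_const _)
            lam_zero := if_pos rfl
            mu_zero := if_pos rfl
            lam_one := ?_
            lam_sum := ?_
            mu_sum := ?_
            inv := ?_
            ser := ?_
            grow := ?_ }, fun s => rfl, fun n hn => if_neg hn, fun n hn => if_neg hn⟩
  · rw [if_neg one_ne_zero]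
    simp [nc, coef]
  · refine hsum.1.congr fun n => ?_
    split_ifs with h1 <;> simp
  · refine hsum.2.congr fun n => ?_
    split_ifs with h1 <;> simp
  · intro n hn
    rw [← nc_inv h n hn]
    refine Finset.sum_congr rfl fun q hq => ?_
    have h4 := Nat.mem_divisorsAntidiagonal.mp hq
    have h5 : q.1 ≠ 0 := by
      intro h; rw [h, zero_mul] at h4; exact h4.2 h4.1.symm
    have h6 : q.2 ≠ 0 := by
      intro h; rw [h, mul_zero] at h4; exact h4.2 h4.1.symm
    rw [if_neg h5, if_neg h6]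
  · intro s hs2
    obtain ⟨h1, h2, -⟩ := nc_series h (s := s) (by linarith)
    have h3 := h1.hasSum
    have h4 : ∑' n, LSeries.term (nc a P) s n = L (s + a) := by
      have : ∑' n, LSeries.term (nc a P) s n = LSeries (nc a P) s := rfl
      rw [this, h2, hs _ (by rw [Complex.add_re, Complex.ofReal_re]; linarith)]
    rw [h4] at h3
    have h5 : (fun n : ℕ => (if n = 0 then 0 else nc a P n) * (n : ℂ) ^ (-s)) =
        fun n => LSeries.term (nc a P) s n := by
      funext n
      rw [LSeries.term_def]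
      split_ifs with hn
      · rw [zero_mul]
      · rw [Complex.cpow_neg, div_eq_mul_inv]
    rw [h5]
    exact h3
  · intro B
    obtain ⟨C, K, h1⟩ := hg (B + |a|)
    refine ⟨(|C| + 1) * (1 + |a|) ^ (max K 0), max K 0, by positivity, le_max_right _ _, fun s hs => ?_⟩
    have h2 := h1 (s + a) (by
      rw [Complex.add_re, Complex.ofReal_re]
      linarith [neg_abs_le a])
    refine h2.trans ?_
    have h3 : (1:ℝ) ≤ 1 + ‖s + a‖ := by linarith [norm_nonneg (s + a)]
    have h4 : (1 + ‖s + a‖) ^ K ≤ (1 + ‖s + a‖) ^ (max K 0) :=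
      Real.rpow_le_rpow_of_exponent_le h3 (le_max_left _ _)
    have h5 : 1 + ‖s + a‖ ≤ (1 + |a|) * (1 + ‖s‖) := by
      have h6 : ‖s + a‖ ≤ ‖s‖ + |a| := by
        refine (norm_add_le _ _).trans ?_
        rw [Complex.norm_real, Real.norm_eq_abs]
      nlinarith [norm_nonneg s, abs_nonneg a]
    have h7 : (1 + ‖s + a‖) ^ (max K 0) ≤ ((1 + |a|) * (1 + ‖s‖)) ^ (max K 0) :=
      Real.rpow_le_rpow (by linarith) h5 (le_max_right _ _)
    rw [Real.mul_rpow (by positivity) (by positivity)] at h7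
    have h8 : 0 ≤ (1 + ‖s + a‖) ^ K := by positivity
    calc C * (1 + ‖s + a‖) ^ K ≤ (|C| + 1) * (1 + ‖s + a‖) ^ K :=
          mul_le_mul_of_nonneg_right (by linarith [le_abs_self C]) h8
      _ ≤ (|C| + 1) * ((1 + |a|) ^ (max K 0) * (1 + ‖s‖) ^ (max K 0)) :=
          mul_le_mul_of_nonneg_left (h4.trans h7) (by positivity)
      _ = _ := by ring

end

end Pool.Agent.Helper39.ND
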