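import Pool.Agent.Helper39.ND.Cm
import Pool.Agent.Helper39.ND.Weil

/-!
The Euler factors of the powers of `y² = x³ - x`.
-/

set_option autoImplicit false

open Filter Topology Set Polynomial
open scoped ComplexConjugate

namespace Pool.Agent.Helper39.ND

open Pool.Agent.W354.HW
open Pool.Agent.H304R2.EC (aE an aE_eq an_inert PS_split)

noncomputable section

/-- `P_i(E^g(p), T)` -/
def frobP (g i : ℕ) (α β : ℕ → ℂ) (p : ℕ) : ℂ[X] :=
  if p = 2 then 1 else ∏ j ∈ Finset.range (i + 1),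
    (1 - C (α p ^ j * β p ^ (i - j)) * X) ^ (g.choose j * g.choose (i - j))

lemma aE_val (p : ℕ) (hp : p.Prime) (h2 : p ≠ 2) :
    (p % 4 = 3 ∧ aE p = 0) ∨ (p % 4 = 1 ∧ aE p ≠ 0 ∧ aE p ^ 2 ≤ 4 * p) := by
  rw [aE_eq p hp h2]
  have hodd := hp.eq_two_or_odd.resolve_left h2
  by_cases h3 : p % 4 = 3
  · exact Or.inl ⟨h3, an_inert p hp h3⟩
  · have h1 : p % 4 = 1 := by omega
    obtain ⟨a, b, hb0, hb, hab, hn, hPS⟩ := PS_split p hp h1
    have hne : ((a, b) : ℤ × ℤ) ≠ (a, -b) := by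
      intro heq
      rw [Prod.mk.injEq] at heq
      omega
    have han : an p = 2 * a := by
      unfold an
      rw [hPS, Finset.sum_pair hne]
      ring
    refine Or.inr ⟨h1, ?_, ?_⟩
    · rw [han]
      intro h
      omega
    · rw [han, ← hn]
      nlinarith [sq_nonneg b]

lemma root_norm {p : ℕ} (hp : p.Prime) (h2 : p ≠ 2) {α β : ℂ} (hs : α + β = (aE p : ℂ)) (hm : α * β = p) :
    ‖α‖ = Real.sqrt p := by
  have ha : ((aE p : ℤ) : ℝ) ^ 2 ≤ 4 * p := by
    rcases aE_val p hp h2 with ⟨_, h⟩ | ⟨_, _, h⟩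
    · rw [h]; simp
    · exact_mod_cast h
  set a : ℝ := ((aE p : ℤ) : ℝ) with hadef
  have hβ : β = (a : ℂ) - α := by
    rw [hadef]
    push_cast
    linear_combination hs
  rw [hβ] at hm
  have h3 := congrArg Complex.re hm
  have h4 := congrArg Complex.im hm
  simp only [Complex.mul_re, Complex.sub_re, Complex.ofReal_re, Complex.sub_im, Complex.ofReal_im, Complex.natCast_re,
    Complex.mul_im, Complex.natCast_im] at h3 h4
  rw [eq_comm, Real.sqrt_eq_iff_mul_self_eq (Nat.cast_nonneg p) (norm_nonneg _), ← sq, ← Complex.normSq_eq_norm_sq,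
    Complex.normSq_apply]
  have h5 : α.im * (a - 2 * α.re) = 0 := by linear_combination h4
  rcases mul_eq_zero.mp h5 with h6 | h6
  · rw [h6] at h3 ⊢
    have h7 : (2 * α.re - a) ^ 2 = a ^ 2 - 4 * p := by linear_combination (-4) * h3
    have h8 : (2 * α.re - a) ^ 2 = 0 := le_antisymm (by rw [h7]; linarith) (sq_nonneg _)
    have h9 : 2 * α.re - a = 0 := pow_eq_zero_iff (by norm_num) |>.mp h8
    linear_combination (-1) * h3 - α.re * h9
  · linear_combination (-1) * h3 + α.re * h6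

lemma eval_frobP (g i : ℕ) (α β : ℕ → ℂ) (p : ℕ) (h2 : p ≠ 2) (z : ℂ) : (frobP g i α β p).eval z =
    ∏ j ∈ Finset.range (i + 1), (1 - α p ^ j * β p ^ (i - j) * z) ^ (g.choose j * g.choose (i - j)) := by
  unfold frobP
  rw [if_neg h2, Polynomial.eval_prod]
  refine Finset.prod_congr rfl fun j _ => ?_
  simp

/-- the traces of Frobenius and the Frobenius roots -/
def FR (α β : ℕ → ℂ) : Prop := ∀ p : ℕ, p.Prime → p ≠ 2 → α p + β p = (aE p : ℂ) ∧ α p * β p = p

/-- the Weil bound -/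
theorem frob_eul {α β : ℕ → ℂ} (h : FR α β) (g i : ℕ) :
    IsEul ((2 * g).choose i) ((i : ℝ) / 2) (frobP g i α β) := by
  intro p hp
  by_cases h2 : p = 2
  · have e : frobP g i α β p = 1 := if_pos h2
    rw [e]
    refine ⟨by simp, by simp, fun z hz => ?_⟩
    simp at hz
  · refine ⟨?_, ?_, fun z hz => ?_⟩
    · rw [Polynomial.coeff_zero_eq_eval_zero, eval_frobP g i α β p h2]
      simp
    · unfold frobP
      rw [if_neg h2]
      refine (Polynomial.natDegree_prod_le _ _).trans ?_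
      have h3 : (2 * g).choose i = ∑ j ∈ Finset.range (i + 1), g.choose j * g.choose (i - j) := by
        rw [two_mul, Nat.add_choose_eq, Finset.Nat.sum_antidiagonal_eq_sum_range_succ_mk]
      rw [h3]
      refine Finset.sum_le_sum fun j _ => ?_
      refine Polynomial.natDegree_pow_le.trans ?_
      have h4 : (1 - C (α p ^ j * β p ^ (i - j)) * X : ℂ[X]).natDegree ≤ 1 := by
        refine (Polynomial.natDegree_sub_le _ _).trans ?_
        rw [Polynomial.natDegree_one]
        exact max_le (Nat.zero_le _) ((Polynomial.natDegree_C_mul_le _ _).trans Polynomial.natDegree_X_le)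
      calc g.choose j * g.choose (i - j) * _ ≤ g.choose j * g.choose (i - j) * 1 := Nat.mul_le_mul_left _ h4
        _ = _ := mul_one _
    · rw [eval_frobP g i α β p h2, Finset.prod_eq_zero_iff] at hz
      obtain ⟨j, hj, hz⟩ := hz
      have hji : j ≤ i := Nat.lt_succ_iff.mp (Finset.mem_range.mp hj)
      have hc : g.choose j * g.choose (i - j) ≠ 0 := by
        intro h5
        rw [h5, pow_zero] at hz
        exact one_ne_zero hz
      have h3 := (pow_eq_zero_iff hc).mp hz
      obtain ⟨hs, hm⟩ := h p hp h2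
      have hα := root_norm hp h2 hs hm
      have hβ := root_norm hp h2 (α := β p) (β := α p) (by rw [add_comm]; exact hs) (by rw [mul_comm]; exact hm)
      have hp0 : (0:ℝ) < p := by exact_mod_cast hp.pos
      have h4 : ‖α p ^ j * β p ^ (i - j)‖ = (p : ℝ) ^ ((i : ℝ) / 2) := by
        rw [norm_mul, norm_pow, norm_pow, hα, hβ, ← pow_add, Nat.add_sub_cancel' hji, Real.sqrt_eq_rpow,
          ← Real.rpow_natCast, ← Real.rpow_mul hp0.le]
        congr 1
        ring
      have h5 : α p ^ j * β p ^ (i - j) * z = 1 := by linear_combination -h3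
      have h6 := congrArg norm h5
      rw [norm_mul, h4, norm_one] at h6
      rw [Real.rpow_neg hp0.le]
      have h7 : 0 < (p : ℝ) ^ ((i : ℝ) / 2) := Real.rpow_pos_of_pos hp0 _
      exact (eq_inv_of_mul_eq_one_right h6).ge

/-- the continuation -/
theorem frob_cont {α β : ℕ → ℂ} (h : FR α β) (g m : ℕ) :
    ∃ L : ℂ → ℂ, Differentiable ℂ L ∧
      (∀ s : ℂ, 1 + ((2 * m + 1 : ℕ) : ℝ) / 2 < s.re → L s = LF (frobP g (2 * m + 1) α β) s) ∧
      ∀ B : ℝ, ∃ C K : ℝ, ∀ s : ℂ, -B ≤ s.re → ‖L s‖ ≤ C * (1 + ‖s‖) ^ K := by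
  refine ⟨fun s => LL0 g m (s - ((2 * m + 1 : ℕ) : ℂ) / 2), (LL0_diff g m).comp (differentiable_id.sub_const _), ?_, ?_⟩
  · intro s hs
    have h1 := LL0_prod g m α β h s hs
    set ι : {p : ℕ // p.Prime ∧ p ≠ 2} → Nat.Primes := fun p => ⟨p.1, p.2.1⟩ with hι
    have hinj : Function.Injective ι := by
      intro a b hab
      apply Subtype.ext
      exact congrArg (fun x : Nat.Primes => (x : ℕ)) hab
    have hsupp : ∀ p : Nat.Primes, p ∉ Set.range ι → ((frobP g (2 * m + 1) α β p).eval (((p : ℕ) : ℂ) ^ (-s)))⁻¹ = 1 := by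
      intro p hp
      have h2 : (p : ℕ) = 2 := by
        by_contra h2
        exact hp ⟨⟨p.1, p.2, h2⟩, rfl⟩
      have e : frobP g (2 * m + 1) α β p = 1 := if_pos h2
      rw [e]
      simp
    have h2 : ((fun p : Nat.Primes => ((frobP g (2 * m + 1) α β p).eval (((p : ℕ) : ℂ) ^ (-s)))⁻¹) ∘ ι) =
        fun p : {p : ℕ // p.Prime ∧ p ≠ 2} => (locE g (2 * m + 1) (α p) (β p) p s)⁻¹ := by
      funext p
      show ((frobP g (2 * m + 1) α β p).eval (((p : ℕ) : ℂ) ^ (-s)))⁻¹ = _
      rw [eval_frobP g _ α β p p.2.2]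
      rfl
    rw [← h2] at h1
    have h3 := (hinj.hasProd_iff hsupp).mp h1
    exact h3.tprod_eq.symm
  · intro B
    obtain ⟨C, K, h1, h2, h3⟩ := LL0_grow g m (B + ((2 * m + 1 : ℕ) : ℝ) / 2)
    set a : ℝ := ((2 * m + 1 : ℕ) : ℝ) / 2 with ha
    have hac : ((2 * m + 1 : ℕ) : ℂ) / 2 = (a : ℂ) := by rw [ha]; push_cast; rfl
    refine ⟨C * (1 + |a|) ^ K, K, fun s hs => ?_⟩
    rw [hac]
    refine (h3 (s - a) (by rw [Complex.sub_re, Complex.ofReal_re]; linarith)).trans ?_
    rw [mul_assoc]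
    refine mul_le_mul_of_nonneg_left ?_ h1.le
    rw [← Real.mul_rpow (by positivity) (by positivity)]
    refine Real.rpow_le_rpow (by positivity) ?_ h2
    have h6 : ‖s - a‖ ≤ ‖s‖ + |a| := by
      refine (norm_sub_le _ _).trans ?_
      rw [Complex.norm_real, Real.norm_eq_abs]
    nlinarith [norm_nonneg s, abs_nonneg a]

/-- the coefficients for the curve itself -/
lemma frob_one {α β : ℕ → ℂ} (h : FR α β) {p : ℕ} (hp : p.Prime) (h2 : p ≠ 2) :
    frobP 1 1 α β p = 1 - C (aE p : ℂ) * X + C (p : ℂ) * X ^ 2 := by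
  obtain ⟨hs, hm⟩ := h p hp h2
  unfold frobP
  rw [if_neg h2, Finset.prod_range_succ, Finset.prod_range_one]
  simp only [pow_zero, one_mul, Nat.sub_zero, pow_one, Nat.choose_self, Nat.choose_zero_right, mul_one,
    Nat.sub_self]
  rw [← hs, ← hm]
  rw [C_add, C_mul]
  ring

/-- the coefficient of `T^k` -/
lemma frob_coeff {α β : ℕ → ℂ} (h : FR α β) {p : ℕ} (hp : p.Prime) (k : ℕ) :
    (frobP 1 1 α β p).coeff k ≠ 0 ↔ (p = 2 → k = 0) ∧ k ≤ 2 ∧ (p % 4 = 3 → k ≠ 1) := by
  by_cases h2 : p = 2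
  · have e : frobP 1 1 α β p = 1 := if_pos h2
    rw [e, Polynomial.coeff_one]
    constructor
    · intro h3
      have hk : k = 0 := by
        by_contra hk
        rw [if_neg hk] at h3
        exact h3 rfl
      exact ⟨fun _ => hk, by omega, by omega⟩
    · rintro ⟨h3, _, _⟩
      rw [if_pos (h3 h2)]
      exact one_ne_zero
  · rw [frob_one h hp h2]
    have hp0 : (p : ℂ) ≠ 0 := Nat.cast_ne_zero.mpr hp.ne_zero
    simp only [coeff_add, coeff_sub, coeff_one, coeff_C_mul, coeff_X, coeff_X_pow]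
    rcases k with _ | _ | _ | k
    · simp
    · simp only [zero_add]
      have h3 := aE_val p hp h2
      constructor
      · intro h4
        refine ⟨fun h => absurd h h2, by norm_num, fun h5 => ?_⟩
        rcases h3 with ⟨_, h6⟩ | ⟨h6, _⟩
        · exfalso; apply h4; rw [h6]; simp
        · omega
      · rintro ⟨_, _, h4⟩
        rcases h3 with ⟨h6, _⟩ | ⟨_, h6, _⟩
        · exact absurd rfl (h4 h6)
        · have : ((aE p : ℤ) : ℂ) ≠ 0 := by exact_mod_cast h6
          simpa using this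
    · simp [h2, hp0]
    · simp

end

end Pool.Agent.Helper39.ND
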