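import Pool.Agent.Helper39.ND.Weil

/-!
The reciprocal of an Euler product, from approximations.
-/

set_option autoImplicit false

open Filter Topology Set Polynomial

namespace Pool.Agent.Helper39.ND

noncomputable section

/-- the reciprocal continues -/
theorem recip_eul {b : ℕ} {a : ℝ} {P : ℕ → ℂ[X]} (h : IsEul b a P) {p σ : ℝ} (hp : 1 ≤ p) {A : Set ℝ}
    (hA : ∀ θ ∈ A, 0 < θ ∧ θ ≤ 1) (ha : Approx (nc a P) p σ A) :
    ∃ H : ℂ → ℂ, DifferentiableOn ℂ H {s | σ + a < s.re} ∧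
      ∀ s : ℂ, σ + a < s.re → 1 + a < s.re → H s * LF P s = 1 := by
  obtain ⟨H, h1, h2⟩ := recip_of_approx (nc_Sum2 h) hp hA ha
  refine ⟨fun s => H (s - a), ?_, fun s hs1 hs2 => ?_⟩
  · refine h1.comp (differentiable_id.sub_const _).differentiableOn fun s hs => ?_
    have hs' : σ + a < s.re := hs
    show σ < (s - a).re
    rw [Complex.sub_re, Complex.ofReal_re]; linarith
  · set τ : ℝ := max σ 1 with hτ
    have habs : LSeries.abscissaOfAbsConv (nc a P) ≤ (1 : ℝ) := by
      refine LSeries.abscissaOfAbsConv_le_of_forall_lt_LSeriesSummable fun y hy => ?_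
      exact (nc_series h (s := (y : ℂ)) (by simpa using hy)).1
    have hUo : IsOpen {s : ℂ | τ < s.re} := isOpen_lt continuous_const Complex.continuous_re
    have h3 : AnalyticOnNhd ℂ (LSeries (nc a P)) {s : ℂ | τ < s.re} := by
      refine (LSeries_analyticOnNhd (nc a P)).mono fun s hs => ?_
      have hs' : τ < s.re := hs
      show LSeries.abscissaOfAbsConv (nc a P) < s.re
      refine lt_of_le_of_lt habs ?_
      exact_mod_cast lt_of_le_of_lt (le_max_right σ 1) hs'
    have h4 : AnalyticOnNhd ℂ (fun s => H s * LSeries (nc a P) s) {s : ℂ | τ < s.re} :=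
      ((h1.mono fun s hs => lt_of_le_of_lt (le_max_left σ 1) hs).analyticOnNhd hUo).mul h3
    have h5 : AnalyticOnNhd ℂ (fun _ : ℂ => (1:ℂ)) {s : ℂ | τ < s.re} := analyticOnNhd_const
    have hpre : IsPreconnected {s : ℂ | τ < s.re} := (convex_halfSpace_re_gt τ).isPreconnected
    have h6 := h4.eqOn_of_preconnected_of_eventuallyEq h5 hpre (z₀ := ((τ + 2 : ℝ) : ℂ)) (by
      show τ < ((τ + 2 : ℝ) : ℂ).re
      rw [Complex.ofReal_re]; linarith) (by
      have h7 : {s : ℂ | τ + 1 < s.re} ∈ 𝓝 ((τ + 2 : ℝ) : ℂ) :=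
        (isOpen_lt continuous_const Complex.continuous_re).mem_nhds (by
          show τ + 1 < ((τ + 2 : ℝ) : ℂ).re
          rw [Complex.ofReal_re]; linarith)
      filter_upwards [h7] with z hz
      have hz' : τ + 1 < z.re := hz
      have h8 := le_max_left σ 1
      have h9 := le_max_right σ 1
      exact h2 z (by linarith) (by linarith))
    have h7 : τ < (s - a).re := by
      rw [Complex.sub_re, Complex.ofReal_re]
      exact max_lt (by linarith) (by linarith)
    have h8 : H (s - a) * LSeries (nc a P) (s - a) = 1 := h6 h7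
    rw [(nc_series h (s := s - a) (lt_of_le_of_lt (le_max_right σ 1) h7)).2.1] at h8
    rw [sub_add_cancel] at h8
    exact h8

/-- the classification for an Euler product with an entire continuation -/
theorem classify_eul {b : ℕ} {a : ℝ} {P : ℕ → ℂ[X]} (h : IsEul b a P) {L : ℂ → ℂ} (hL : Differentiable ℂ L)
    (hs : ∀ s : ℂ, 1 + a < s.re → L s = LF P s)
    (hg : ∀ B : ℝ, ∃ C K : ℝ, ∀ s : ℂ, -B ≤ s.re → ‖L s‖ ≤ C * (1 + ‖s‖) ^ K)
    {θ : ℝ} (hθ : 0 ≤ θ) {A : Set ℝ} (hA : ∀ θ ∈ A, 0 < θ ∧ θ ≤ 1) {p : ℝ} (hp : 1 ≤ p) :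
    (∀ σ : ℝ, θ < σ → Approx (nc a P) p σ A) ↔
      (∀ s : ℂ, L s = 0 → s.re ≤ θ + a) ∧ ∀ n : ℕ, n ≠ 0 → coefInv P n ≠ 0 → (1 / (n : ℝ)) ∈ closure A := by
  obtain ⟨O, h1, h2, h3⟩ := exists_LFn h hL hs hg
  have hcong : ∀ σ : ℝ, Approx (nc a P) p σ A ↔ Approx O.lam p σ A := by
    intro σ
    have hS : ∀ z : ℝ, S (nc a P) z = S O.lam z := by
      intro z
      unfold S
      refine Finset.sum_congr rfl fun k hk => ?_
      rw [h2 k (by have := (Finset.mem_Icc.mp hk).1; omega)]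
    have hE : ∀ (T : Finset ℝ) (c : ℝ → ℂ), err (nc a P) T c = err O.lam T c := by
      intro T c
      funext y
      unfold err
      simp only [hS]
    unfold Approx
    simp only [hE]
  have hmain := classify O hθ hA hp
  have hmu : ∀ n : ℕ, 1 ≤ n → (O.mu n ≠ 0 ↔ coefInv P n ≠ 0) := by
    intro n hn
    rw [h3 n (by omega)]
    unfold ncInv
    have hn0 : (0:ℝ) < n := by exact_mod_cast hn
    have : (((n : ℝ) ^ (-a) : ℝ) : ℂ) ≠ 0 := by exact_mod_cast (Real.rpow_pos_of_pos hn0 (-a)).ne'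
    rw [mul_ne_zero_iff]
    exact ⟨fun h => h.1, fun h => ⟨h, this⟩⟩
  constructor
  · intro hap
    obtain ⟨h4, h5⟩ := hmain.mp fun σ hσ => (hcong σ).mp (hap σ hσ)
    refine ⟨fun s hs0 => ?_, fun n hn hc => h5 n (by omega) ((hmu n (by omega)).mpr hc)⟩
    by_contra hlt
    rw [not_le] at hlt
    refine h4 (s - a) (by rw [Complex.sub_re, Complex.ofReal_re]; linarith) ?_
    rw [h1, sub_add_cancel]
    exact hs0
  · rintro ⟨h4, h5⟩ σ hσ
    refine (hcong σ).mpr (hmain.mpr ⟨fun s hs => ?_, fun n hn hc => h5 n (by omega) ((hmu n hn).mp hc)⟩ σ hσ)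
    intro h0
    rw [h1] at h0
    have := h4 _ h0
    rw [Complex.add_re, Complex.ofReal_re] at this
    linarith

end

end Pool.Agent.Helper39.ND
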