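import Pool.Agent.Helper39.ND.Nec

/-!
Small perturbations of the dilations: continuity of translations in `L^p`.
-/

set_option autoImplicit false

open MeasureTheory Filter Topology Set
open scoped ENNReal

namespace Pool.Agent.Helper39.ND

noncomputable section

/-- the function in the variable `v = log y`, on `v > 0` -/
def tw (σ : ℝ) (f : ℝ → ℂ) : ℝ → ℂ :=
  (Ioi (0:ℝ)).indicator fun v => f (Real.exp v) * ((Real.exp (-σ * v) : ℝ) : ℂ)

lemma tw_meas {σ : ℝ} {f : ℝ → ℂ} (hf : Measurable f) : Measurable (tw σ f) := by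
  refine Measurable.indicator ?_ measurableSet_Ioi
  refine (hf.comp Real.measurable_exp).mul (Complex.measurable_ofReal.comp ?_)
  exact Real.measurable_exp.comp (measurable_id.const_mul _)

lemma image_exp : Real.exp '' Ioi 0 = Ioi 1 := by
  ext y
  simp only [mem_image, mem_Ioi]
  constructor
  · rintro ⟨v, hv, rfl⟩; exact Real.one_lt_exp_iff.mpr hv
  · intro hy; exact ⟨Real.log y, Real.log_pos hy, Real.exp_log (by linarith)⟩

lemma nrm_tw {p σ : ℝ} (hp : 1 ≤ p) (f : ℝ → ℂ) :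
    nrm p σ f = (eLpNorm (tw σ f) (ENNReal.ofReal p) volume) ^ p := by
  have hp0 : 0 < p := by linarith
  have h1 : ENNReal.ofReal p ≠ 0 := by simpa using hp0
  rw [eLpNorm_eq_lintegral_rpow_enorm_toReal h1 ENNReal.ofReal_ne_top, ENNReal.toReal_ofReal hp0.le,
    ← ENNReal.rpow_mul, one_div, inv_mul_cancel₀ hp0.ne', ENNReal.rpow_one]
  unfold nrm
  rw [← image_exp, lintegral_image_eq_lintegral_abs_deriv_mul measurableSet_Ioi
    (fun x _ => (Real.hasDerivAt_exp x).hasDerivWithinAt) Real.exp_injective.injOn]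
  rw [← lintegral_indicator measurableSet_Ioi]
  refine lintegral_congr fun v => ?_
  unfold tw
  by_cases hv : v ∈ Ioi (0:ℝ)
  · rw [indicator_of_mem hv, indicator_of_mem hv, enorm_mul, ENNReal.mul_rpow_of_nonneg _ _ hp0.le,
      ← ofReal_norm, ← ofReal_norm, ENNReal.ofReal_rpow_of_nonneg (norm_nonneg _) hp0.le,
      ENNReal.ofReal_rpow_of_nonneg (norm_nonneg _) hp0.le, ← ENNReal.ofReal_mul (by positivity),
      ← ENNReal.ofReal_mul (by positivity)]
    congr 1
    have he := Real.exp_pos v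
    rw [Complex.norm_real, Real.norm_of_nonneg (Real.exp_pos _).le, abs_of_pos he]
    have e1 : Real.exp v ^ (-(p * σ) - 1) = Real.exp (-(p * σ) * v) * Real.exp (-v) := by
      rw [← Real.exp_mul, ← Real.exp_add]; congr 1; ring
    have e2 : Real.exp (-σ * v) ^ p = Real.exp (-(p * σ) * v) := by
      rw [← Real.exp_mul]; congr 1; ring
    rw [e1, e2]
    have e3 : Real.exp v * Real.exp (-v) = 1 := by rw [← Real.exp_add]; simp
    linear_combination (‖f (Real.exp v)‖ ^ p * Real.exp (-(p * σ) * v)) * e3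
  · rw [indicator_of_notMem hv, indicator_of_notMem hv, enorm_zero, ENNReal.zero_rpow_of_pos hp0]

/-- the summatory function in the variable `log` -/
def FS (lam : ℕ → ℂ) (σ : ℝ) (v : ℝ) : ℂ := S lam (Real.exp v) * ((Real.exp (-σ * v) : ℝ) : ℂ)

lemma FS_meas (lam : ℕ → ℂ) (σ : ℝ) : Measurable (FS lam σ) := by
  unfold FS
  refine ((S_meas lam).comp Real.measurable_exp).mul (Complex.measurable_ofReal.comp ?_)
  exact Real.measurable_exp.comp (measurable_id.const_mul _)

lemma FS_memLp {lam : ℕ → ℂ} {p σ : ℝ} (hp : 1 ≤ p) (h : nrm p σ (S lam) ≠ ⊤) :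
    MemLp (FS lam σ) (ENNReal.ofReal p) volume := by
  have hp0 : 0 < p := by linarith
  have e : FS lam σ =ᵐ[volume] tw σ (S lam) := by
    have hne : ∀ᵐ y : ℝ, y ≠ 0 := by simp [ae_iff, measure_singleton]
    filter_upwards [hne] with v hv
    unfold tw FS
    rcases lt_or_ge 0 v with h1 | h1
    · rw [indicator_of_mem (show v ∈ Ioi (0:ℝ) from h1)]
    · rw [indicator_of_notMem (show v ∉ Ioi (0:ℝ) from not_lt.mpr h1), S_zero, zero_mul]
      exact Real.exp_lt_one_iff.mpr (lt_of_le_of_ne h1 hv)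
  refine (memLp_congr_ae e).mpr ⟨(tw_meas (S_meas lam)).aestronglyMeasurable, ?_⟩
  rw [nrm_tw hp] at h
  by_contra hcon
  rw [not_lt, top_le_iff] at hcon
  rw [hcon, ENNReal.top_rpow_of_pos hp0] at h
  exact h rfl

/-- translations are continuous -/
lemma trans_tendsto {f : ℝ → ℂ} {P : ℝ≥0∞} [Fact (1 ≤ P)] (hP : P ≠ ⊤) (hf : MemLp f P volume) {u : ℕ → ℝ} {h : ℝ}
    (hu : Tendsto u atTop (𝓝 h)) :
    Tendsto (fun j => eLpNorm ((fun v => f (v + u j)) - fun v => f (v + h)) P volume) atTop (𝓝 0) := by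
  let g : C(ℝ, C(ℝ, ℝ)) := (ContinuousMap.mk (fun a : ℝ × ℝ => a.2 + a.1) (by fun_prop)).curry
  have hg : ∀ a : ℝ, MeasurePreserving (g a) (volume : Measure ℝ) volume := fun a =>
    measurePreserving_add_right volume a
  have h1 : Tendsto (fun j => g (u j)) atTop (𝓝 (g h)) := (g.continuous.tendsto h).comp hu
  have h2 := Filter.Tendsto.compMeasurePreservingLp (f := fun _ : ℕ => hf.toLp f) (f₀ := hf.toLp f)
    tendsto_const_nhds h1 (fun j => hg (u j)) (hg h) hP
  rw [tendsto_iff_edist_tendsto_0] at h2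
  refine h2.congr fun j => ?_
  rw [Lp.toLp_compMeasurePreserving, Lp.toLp_compMeasurePreserving, Lp.edist_toLp_toLp]
  rfl

lemma FS_shift (lam : ℕ → ℂ) (σ : ℝ) {θ : ℝ} (hθ : 0 < θ) (v : ℝ) :
    S lam (θ * Real.exp v) * ((Real.exp (-σ * v) : ℝ) : ℂ) = ((θ ^ σ : ℝ) : ℂ) * FS lam σ (v + Real.log θ) := by
  unfold FS
  have e1 : Real.exp (v + Real.log θ) = θ * Real.exp v := by
    rw [Real.exp_add, Real.exp_log hθ]; ring
  have e2 : Real.exp (-σ * v) = θ ^ σ * Real.exp (-σ * (v + Real.log θ)) := by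
    rw [Real.rpow_def_of_pos hθ, ← Real.exp_add]; congr 1; ring
  rw [e1, e2]
  push_cast
  ring

/-- **small perturbations of the dilations** -/
theorem perturb {lam : ℕ → ℂ} {p σ : ℝ} (hp : 1 ≤ p) (hS : nrm p σ (S lam) ≠ ⊤) {A : Set ℝ}
    (hA : ∀ θ ∈ A, 0 < θ ∧ θ ≤ 1) {K : Finset ℕ} {b : ℕ → ℂ}
    (hK : ∀ k ∈ K, 1 ≤ k ∧ (1 / (k : ℝ)) ∈ closure A) {ε : ℝ≥0∞}
    (he : nrm p σ (fun y => 1 - ∑ k ∈ K, b k * S lam (y / k)) < ε) :
    ∃ (T : Finset ℝ) (c : ℝ → ℂ), (∀ θ ∈ T, θ ∈ A) ∧ nrm p σ (err lam T c) < ε := by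
  have hp0 : 0 < p := by linarith
  have : Fact (1 ≤ ENNReal.ofReal p) := ⟨by rw [← ENNReal.ofReal_one]; exact ENNReal.ofReal_le_ofReal hp⟩
  have hP : ENNReal.ofReal p ≠ ⊤ := ENNReal.ofReal_ne_top
  have hseq : ∀ k ∈ K, ∃ u : ℕ → ℝ, (∀ j, u j ∈ A) ∧ Tendsto u atTop (𝓝 (1 / (k : ℝ))) := fun k hk =>
    mem_closure_iff_seq_limit.mp (hK k hk).2
  choose! u hu1 hu2 using hseq
  have hk0 : ∀ k ∈ K, (0:ℝ) < 1 / (k:ℝ) := fun k hk => by
    have : (1:ℝ) ≤ k := by exact_mod_cast (hK k hk).1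
    positivity
  have hF := FS_memLp hp hS
  -- the coefficients
  set B : ℕ → ℂ := fun k => b k * (((1 / (k:ℝ)) ^ σ : ℝ) : ℂ) with hB
  set g₀ : ℝ → ℂ := tw σ (fun y => 1 - ∑ k ∈ K, b k * S lam (y / k)) with hg₀
  set f : ℕ → ℝ → ℂ := fun j y => 1 - ∑ k ∈ K, (B k / (((u k j) ^ σ : ℝ) : ℂ)) * S lam (u k j * y) with hf
  have hdiff : ∀ j, eLpNorm (tw σ (f j) - g₀) (ENNReal.ofReal p) volume ≤
      ∑ k ∈ K, ‖B k‖ₑ * eLpNorm ((fun v => FS lam σ (v + Real.log (u k j))) -
        fun v => FS lam σ (v + Real.log (1 / (k:ℝ)))) (ENNReal.ofReal p) volume := by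
    intro j
    have h1 : ∀ v, ‖(tw σ (f j) - g₀) v‖ ≤ ‖(∑ k ∈ K, B k • ((fun v => FS lam σ (v + Real.log (1 / (k:ℝ)))) -
        fun v => FS lam σ (v + Real.log (u k j)))) v‖ := by
      intro v
      rw [Pi.sub_apply, Finset.sum_apply]
      by_cases hv : v ∈ Ioi (0:ℝ)
      · rw [hg₀]
        unfold tw
        rw [indicator_of_mem hv, indicator_of_mem hv, hf]
        refine le_of_eq ?_
        congr 1
        simp only [Pi.smul_apply, Pi.sub_apply, smul_eq_mul]
        rw [← sub_mul, sub_sub_sub_cancel_left, ← Finset.sum_sub_distrib, Finset.sum_mul]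
        refine Finset.sum_congr rfl fun k hk => ?_
        have hu0 := (hA _ (hu1 k hk j)).1
        have e1 := FS_shift lam σ (hk0 k hk) v
        have e2 := FS_shift lam σ hu0 v
        have e3 : Real.exp v / k = 1 / (k:ℝ) * Real.exp v := by ring
        have e4 : ((((u k j) ^ σ : ℝ)) : ℂ) ≠ 0 := by
          exact_mod_cast (Real.rpow_pos_of_pos hu0 σ).ne'
        rw [sub_mul, mul_assoc, mul_assoc, e3, e1, e2, hB]
        field_simp
      · rw [hg₀]
        unfold tw
        rw [indicator_of_notMem hv, indicator_of_notMem hv, sub_zero, norm_zero]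
        exact norm_nonneg _
    refine (eLpNorm_mono h1).trans ?_
    have h2 : ∀ k ∈ K, AEStronglyMeasurable (B k • ((fun v => FS lam σ (v + Real.log (1 / (k:ℝ)))) -
        fun v => FS lam σ (v + Real.log (u k j)))) volume := by
      intro k _
      refine AEStronglyMeasurable.const_smul ?_ _
      exact (((FS_meas lam σ).comp (measurable_add_const _)).sub
        ((FS_meas lam σ).comp (measurable_add_const _))).aestronglyMeasurable
    refine (eLpNorm_sum_le h2 Fact.out).trans ?_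
    refine Finset.sum_le_sum fun k _ => ?_
    rw [eLpNorm_const_smul, eLpNorm_sub_comm]
  have hlim : Tendsto (fun j => eLpNorm (tw σ (f j) - g₀) (ENNReal.ofReal p) volume) atTop (𝓝 0) := by
    refine tendsto_of_tendsto_of_tendsto_of_le_of_le tendsto_const_nhds ?_ (fun _ => zero_le) hdiff
    have h3 : Tendsto (fun j => ∑ k ∈ K, ‖B k‖ₑ * eLpNorm ((fun v => FS lam σ (v + Real.log (u k j))) -
        fun v => FS lam σ (v + Real.log (1 / (k:ℝ)))) (ENNReal.ofReal p) volume) atTop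
        (𝓝 (∑ k ∈ K, ‖B k‖ₑ * 0)) := by
      refine tendsto_finsetSum _ fun k hk => ?_
      refine ENNReal.Tendsto.const_mul ?_ (Or.inr (by simp))
      refine trans_tendsto hP hF ?_
      exact (Real.continuousAt_log (hk0 k hk).ne').tendsto.comp (hu2 k hk)
    simpa using h3
  have hg : eLpNorm g₀ (ENNReal.ofReal p) volume < ε ^ (1 / p) := by
    rw [nrm_tw hp] at he
    have h4 := ENNReal.rpow_lt_rpow he (show 0 < 1 / p by positivity)
    rw [← ENNReal.rpow_mul, mul_one_div, div_self hp0.ne', ENNReal.rpow_one] at h4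
    exact h4
  have hev : ∀ᶠ j in atTop, eLpNorm g₀ (ENNReal.ofReal p) volume +
      eLpNorm (tw σ (f j) - g₀) (ENNReal.ofReal p) volume < ε ^ (1 / p) := by
    have h5 : Tendsto (fun j => eLpNorm g₀ (ENNReal.ofReal p) volume +
      eLpNorm (tw σ (f j) - g₀) (ENNReal.ofReal p) volume) atTop (𝓝 (eLpNorm g₀ (ENNReal.ofReal p) volume + 0)) :=
      hlim.const_add _
    rw [add_zero] at h5
    exact h5.eventually_lt_const hg
  obtain ⟨j, hj⟩ := hev.exists
  have hmeas : Measurable (f j) := by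
    rw [hf]
    refine measurable_const.sub (Finset.measurable_fun_sum _ fun k _ => ?_)
    exact ((S_meas lam).comp (measurable_const_mul _)).const_mul _
  have hmeas0 : Measurable (fun y : ℝ => 1 - ∑ k ∈ K, b k * S lam (y / k)) := by
    refine measurable_const.sub (Finset.measurable_fun_sum _ fun k _ => ?_)
    exact ((S_meas lam).comp (measurable_id.div_const _)).const_mul _
  have h6 : eLpNorm (tw σ (f j)) (ENNReal.ofReal p) volume < ε ^ (1 / p) := by
    refine lt_of_le_of_lt ?_ hj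
    have h7 : tw σ (f j) = g₀ + (tw σ (f j) - g₀) := by abel
    conv_lhs => rw [h7]
    exact eLpNorm_add_le (tw_meas hmeas0).aestronglyMeasurable
      ((tw_meas hmeas).sub (tw_meas hmeas0)).aestronglyMeasurable Fact.out
  have h8 : nrm p σ (f j) < ε := by
    rw [nrm_tw hp]
    have h9 := ENNReal.rpow_lt_rpow h6 hp0
    rwa [← ENNReal.rpow_mul, one_div, inv_mul_cancel₀ hp0.ne', ENNReal.rpow_one] at h9
  -- as a combination over a set of dilations
  refine ⟨K.image (fun k => u k j), fun θ => ∑ k ∈ K with u k j = θ, B k / (((u k j) ^ σ : ℝ) : ℂ), ?_, ?_⟩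
  · intro θ hθ
    obtain ⟨k, hk, rfl⟩ := Finset.mem_image.mp hθ
    exact hu1 k hk j
  · have h10 : err lam (K.image (fun k => u k j)) (fun θ => ∑ k ∈ K with u k j = θ, B k / (((u k j) ^ σ : ℝ) : ℂ)) =
        f j := by
      funext y
      unfold err
      rw [hf]
      congr 1
      rw [← Finset.sum_fiberwise_of_maps_to (s := K) (t := K.image (fun k => u k j)) (g := fun k => u k j)
        (fun k hk => Finset.mem_image_of_mem _ hk)]
      refine Finset.sum_congr rfl fun θ _ => ?_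
      rw [Finset.sum_mul]
      refine Finset.sum_congr rfl fun k hk => ?_
      rw [(Finset.mem_filter.mp hk).2]
    rw [h10]
    exact h8

end

end Pool.Agent.Helper39.ND
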